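import Mathlib

set_option autoImplicit false

/-!
# Reduction modulo a prime

Every nontrivial commutative ring of finite type over `ℤ` maps to a finite field.
-/

namespace Pool.Agent.Helper16

/-- `ℤ` is a Jacobson ring. -/
theorem isJacobsonRing_int : IsJacobsonRing ℤ := by
  rw [isJacobsonRing_iff_prime_eq]
  intro P hP
  by_cases h0 : P = ⊥
  · subst h0
    rw [eq_bot_iff]
    intro x hx
    rw [Ideal.mem_jacobson_iff] at hx
    rw [Ideal.mem_bot]
    by_contra hne
    -- take `y = 2 * x`
    obtain ⟨z, hz⟩ := hx (2 * x)
    have hz' : z * (2 * x) * x + z - 1 = 0 := by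
      have := Ideal.mem_bot.mp hz
      linarith [this]
    have h1 : z * (2 * x * x + 1) = 1 := by linarith [hz']
    have h2 : IsUnit (2 * x * x + 1) := IsUnit.of_mul_eq_one z (by linarith [h1])
    have h3 : 0 < x * x := mul_self_pos.mpr hne
    rcases Int.isUnit_iff.mp h2 with h | h
    · nlinarith
    · nlinarith
  · have : P.IsMaximal := hP.isMaximal h0
    exact Ideal.jacobson_eq_self_of_isMaximal

/-- A field of finite type over `ℤ` is finite. -/
theorem finite_of_finiteType_int (K : Type) [Field K] (h : (Int.castRingHom K).FiniteType) :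
    Finite K := by
  have := isJacobsonRing_int
  have hfin : (Int.castRingHom K).Finite := RingHom.finite_iff_finiteType_of_isJacobsonRing.mpr h
  obtain _ | ⟨p, hp, hchar⟩ := CharP.exists' K
  · exfalso
    have hinj : Function.Injective (Int.castRingHom K) := RingHom.injective_int _
    have hf : IsField ℤ := by
      have he : algebraMap ℤ K = Int.castRingHom K := RingHom.ext_int _ _
      have hint : ∀ x : K, IsIntegral ℤ x := by
        intro x
        have h1 := hfin.to_isIntegral x
        rw [← he] at h1
        exact h1
      have : Algebra.IsIntegral ℤ K := ⟨hint⟩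
      exact isField_of_isIntegral_of_isField (R := ℤ) (S := K) (by rw [he]; exact hinj)
        (Field.toIsField K)
    exact Int.not_isField hf
  · have := Fact.mk hp
    have hcomp : ((ZMod.castHom dvd_rfl K : ZMod p →+* K).comp (Int.castRingHom (ZMod p))) =
        Int.castRingHom K := RingHom.ext_int _ _
    have hfin2 : (ZMod.castHom dvd_rfl K : ZMod p →+* K).Finite := by
      apply RingHom.Finite.of_comp_finite (f := Int.castRingHom (ZMod p))
      rw [hcomp]; exact hfin
    algebraize [(ZMod.castHom dvd_rfl K : ZMod p →+* K)]
    exact Module.finite_of_finite (ZMod p)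

/-- Every nontrivial ring of finite type over `ℤ` has a homomorphism to a finite field. -/
theorem exists_finite_field_hom (A : Type) [CommRing A] [Nontrivial A]
    (h : (Int.castRingHom A).FiniteType) :
    ∃ (K : Type) (_ : Field K) (_ : Finite K), Nonempty (A →+* K) := by
  obtain ⟨M, hM⟩ := Ideal.exists_maximal A
  refine ⟨A ⧸ M, Ideal.Quotient.field M, ?_, ⟨Ideal.Quotient.mk M⟩⟩
  refine @finite_of_finiteType_int _ (Ideal.Quotient.field M) ?_
  have h1 : ((Ideal.Quotient.mk M).comp (Int.castRingHom A)).FiniteType :=
    RingHom.FiniteType.comp (RingHom.FiniteType.of_surjective _ Ideal.Quotient.mk_surjective) h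
  have h2 : (Ideal.Quotient.mk M).comp (Int.castRingHom A) = Int.castRingHom (A ⧸ M) :=
    RingHom.ext_int _ _
  rw [h2] at h1
  exact h1

end Pool.Agent.Helper16
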