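import Mathlib

set_option autoImplicit false
set_option linter.unusedSectionVars false

/-!
# Orders of vanishing at points of projective space and the `p`-basis decomposition

`T i0 v` is the linear change of coordinates which moves the point `v` (with `v i0 = 1`) to the
coordinate point `e_{i0}`; `W i0 m` is the ideal of polynomials all of whose monomials have degree
at least `m` in the variables different from `X i0`.  So `T i0 v F ∈ W i0 m` means that `F` vanishes
to order at least `m` at the point `v`.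
-/

namespace Pool.Agent.Helper16

open MvPolynomial

variable {σ : Type} [Fintype σ] [DecidableEq σ]

/-- Degree in the variables different from `i0`. -/
def wt (i0 : σ) (s : σ →₀ ℕ) : ℕ := ∑ i ∈ Finset.univ.erase i0, s i

lemma wt_add (i0 : σ) (s t : σ →₀ ℕ) : wt i0 (s + t) = wt i0 s + wt i0 t := by
  simp [wt, Finset.sum_add_distrib]

lemma wt_smul (i0 : σ) (q : ℕ) (s : σ →₀ ℕ) : wt i0 (q • s) = q * wt i0 s := by
  simp [wt, Finset.mul_sum]

lemma degree_eq_wt (i0 : σ) (s : σ →₀ ℕ) : s.degree = s i0 + wt i0 s := by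
  rw [Finsupp.degree_eq_sum, wt, Finset.add_sum_erase _ _ (Finset.mem_univ i0)]

lemma wt_le_degree (i0 : σ) (s : σ →₀ ℕ) : wt i0 s ≤ s.degree := by
  rw [degree_eq_wt i0]; omega

section Basic

variable {R : Type*} [CommRing R]

/-- Change of coordinates moving `v` (with `v i0 = 1`) to the coordinate point `e_{i0}`. -/
noncomputable def T (i0 : σ) (v : σ → R) : MvPolynomial σ R →ₐ[R] MvPolynomial σ R :=
  aeval (fun i => if i = i0 then X i0 else X i + C (v i) * X i0)

/-- Polynomials with all monomials of degree at least `m` in the variables other than `i0`. -/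
def W (R : Type*) [CommRing R] (i0 : σ) (m : ℕ) : Ideal (MvPolynomial σ R) where
  carrier := {F | ∀ s, coeff s F ≠ 0 → m ≤ wt i0 s}
  add_mem' := by
    intro F G hF hG s hs
    rw [coeff_add] at hs
    by_cases h : coeff s F = 0
    · rw [h, zero_add] at hs; exact hG s hs
    · exact hF s h
  zero_mem' := by intro s hs; simp at hs
  smul_mem' := by
    intro F G hG s hs
    rw [smul_eq_mul, coeff_mul] at hs
    obtain ⟨⟨a, b⟩, hab, hne⟩ := Finset.exists_ne_zero_of_sum_ne_zero hs
    have h1 : coeff b G ≠ 0 := right_ne_zero_of_mul hne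
    have h2 := hG b h1
    rw [Finset.HasAntidiagonal.mem_antidiagonal] at hab
    rw [← hab, wt_add]
    exact le_add_left h2

lemma mem_W {i0 : σ} {m : ℕ} {F : MvPolynomial σ R} :
    F ∈ W R i0 m ↔ ∀ s, coeff s F ≠ 0 → m ≤ wt i0 s := Iff.rfl

lemma W_mono {i0 : σ} {m m' : ℕ} (h : m ≤ m') : W R i0 m' ≤ W R i0 m :=
  fun _ hF s hs => h.trans (hF s hs)

lemma W_mul {i0 : σ} {a b : ℕ} {F G : MvPolynomial σ R} (hF : F ∈ W R i0 a) (hG : G ∈ W R i0 b) :
    F * G ∈ W R i0 (a + b) := by
  intro s hs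
  rw [coeff_mul] at hs
  obtain ⟨⟨x, y⟩, hxy, hne⟩ := Finset.exists_ne_zero_of_sum_ne_zero hs
  rw [Finset.HasAntidiagonal.mem_antidiagonal] at hxy
  rw [← hxy, wt_add]
  exact add_le_add (hF x (left_ne_zero_of_mul hne)) (hG y (right_ne_zero_of_mul hne))

lemma W_pow {i0 : σ} {a : ℕ} {F : MvPolynomial σ R} (hF : F ∈ W R i0 a) (e : ℕ) :
    F ^ e ∈ W R i0 (a * e) := by
  induction e with
  | zero =>
    intro s _
    simp
  | succ e ih =>
    rw [pow_succ, Nat.mul_succ]
    exact W_mul ih hF

lemma W_one_pow_le (i0 : σ) (m : ℕ) : (W R i0 1) ^ m ≤ W R i0 m := by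
  induction m with
  | zero =>
    intro F _ s _
    exact Nat.zero_le _
  | succ m ih =>
    rw [pow_succ, Ideal.mul_le]
    intro F hF G hG
    exact W_mul (ih hF) hG

lemma T_X_self (i0 : σ) (v : σ → R) : T i0 v (X i0) = X i0 := by
  simp [T]

lemma T_X_ne {i0 i : σ} (v : σ → R) (h : i ≠ i0) : T i0 v (X i) = X i + C (v i) * X i0 := by
  simp [T, h]

lemma T_neg_T (i0 : σ) (v : σ → R) (F : MvPolynomial σ R) : T i0 (-v) (T i0 v F) = F := by
  have : (T i0 (-v)).comp (T i0 v) = AlgHom.id R _ := by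
    apply MvPolynomial.algHom_ext
    intro i
    by_cases h : i = i0
    · subst h; simp [T_X_self]
    · rw [AlgHom.comp_apply, T_X_ne v h, map_add, map_mul, T_X_ne _ h, T_X_self]
      have : T i0 (-v) (C (v i)) = C (v i) := by
        rw [← algebraMap_eq]; exact (T i0 (-v)).commutes _
      rw [this]
      simp
  have h2 := DFunLike.congr_fun this F
  simpa using h2

lemma T_T_neg (i0 : σ) (v : σ → R) (F : MvPolynomial σ R) : T i0 v (T i0 (-v) F) = F := by
  have := T_neg_T i0 (-v) F
  rwa [neg_neg] at this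

lemma T_C (i0 : σ) (v : σ → R) (c : R) : T i0 v (C c) = C c := by
  rw [← algebraMap_eq]; exact (T i0 v).commutes _

lemma T_hom (i0 : σ) (v : σ → R) {F : MvPolynomial σ R} {d : ℕ} (hF : F.IsHomogeneous d) :
    (T i0 v F).IsHomogeneous d := by
  have := IsHomogeneous.aeval hF
    (fun i => if i = i0 then (X i0 : MvPolynomial σ R) else X i + C (v i) * X i0) (n := 1) (by
      intro i
      split_ifs
      · exact isHomogeneous_X _ _
      · exact (isHomogeneous_X _ _).add (isHomogeneous_C_mul_X _ _))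
  rwa [one_mul] at this

/-- Chain rule. -/
lemma pderiv_T (i0 j : σ) (v : σ → R) (F : MvPolynomial σ R) :
    pderiv j (T i0 v F) = ∑ i, T i0 v (pderiv i F) * pderiv j (T i0 v (X i)) := by
  induction F using MvPolynomial.induction_on with
  | C c => simp [T_C]
  | add p q hp hq =>
    rw [map_add, map_add, hp, hq, ← Finset.sum_add_distrib]
    refine Finset.sum_congr rfl fun i _ => ?_
    rw [map_add, map_add, add_mul]
  | mul_X p k hp =>
    rw [map_mul, pderiv_mul, hp]
    have h1 : ∀ i, T i0 v (pderiv i (p * X k)) * pderiv j (T i0 v (X i)) =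
        (T i0 v (pderiv i p) * pderiv j (T i0 v (X i))) * T i0 v (X k) +
        (if i = k then T i0 v p * pderiv j (T i0 v (X i)) else 0) := by
      intro i
      rw [pderiv_mul, map_add, map_mul, map_mul]
      by_cases h : i = k
      · subst h; simp; ring
      · rw [pderiv_X_of_ne (Ne.symm h), if_neg h, map_zero]; ring
    rw [Finset.sum_congr rfl fun i _ => h1 i, Finset.sum_add_distrib, ← Finset.sum_mul,
      Finset.sum_ite_eq' Finset.univ k]
    simp

lemma pderiv_mem_W {i0 j : σ} {m : ℕ} {F : MvPolynomial σ R} (hF : F ∈ W R i0 (m + 1)) :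
    pderiv j F ∈ W R i0 m := by
  intro s hs
  rw [coeff_pderiv] at hs
  have h1 := hF _ (left_ne_zero_of_mul hs)
  rw [wt_add] at h1
  have h2 : wt i0 (Finsupp.single j 1) ≤ 1 := by
    refine (wt_le_degree _ _).trans ?_
    simp
  omega

lemma T_pderiv_mem {i0 : σ} {v : σ → R} {m : ℕ} {F : MvPolynomial σ R}
    (hF : T i0 v F ∈ W R i0 (m + 1)) (i : σ) : T i0 v (pderiv i F) ∈ W R i0 m := by
  have hne : ∀ j, j ≠ i0 → T i0 v (pderiv j F) ∈ W R i0 m := by
    intro j hj
    have h := pderiv_T i0 j v F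
    rw [Finset.sum_eq_single j] at h
    · rw [T_X_ne v hj, map_add, pderiv_X_self, pderiv_C_mul, pderiv_X_of_ne (Ne.symm hj),
        mul_zero, add_zero, mul_one] at h
      rw [← h]; exact pderiv_mem_W hF
    · intro b _ hb
      by_cases hb0 : b = i0
      · rw [hb0, T_X_self, pderiv_X_of_ne (Ne.symm hj), mul_zero]
      · rw [T_X_ne v hb0, map_add, pderiv_X_of_ne hb, pderiv_C_mul,
          pderiv_X_of_ne (Ne.symm hj)]; simp
    · intro h'; exact absurd (Finset.mem_univ j) h'
  by_cases hi : i = i0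
  · subst hi
    have h := pderiv_T i i v F
    rw [← Finset.add_sum_erase _ _ (Finset.mem_univ i), T_X_self, pderiv_X_self, mul_one] at h
    have h2 : T i v (pderiv i F) = pderiv i (T i v F) -
        ∑ x ∈ Finset.univ.erase i, T i v (pderiv x F) * pderiv i (T i v (X x)) := by
      rw [h]; ring
    rw [h2]
    refine (W R i m).sub_mem (pderiv_mem_W hF) ((W R i m).sum_mem fun x hx => ?_)
    exact (W R i m).mul_mem_right _ (hne x (Finset.ne_of_mem_erase hx))
  · exact hne i hi

lemma map_T {S : Type*} [CommRing S] (φ : R →+* S) (i0 : σ) (v : σ → R) (F : MvPolynomial σ R) :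
    map φ (T i0 v F) = T i0 (fun i => φ (v i)) (map φ F) := by
  induction F using MvPolynomial.induction_on with
  | C c => simp [T_C]
  | add p q hp hq => simp only [map_add, hp, hq]
  | mul_X p k hp =>
    rw [map_mul, map_mul, hp, map_mul, map_mul, map_X]
    by_cases h : k = i0
    · subst h; simp [T_X_self]
    · simp [T_X_ne _ h]

lemma map_mem_W {S : Type*} [CommRing S] (φ : R →+* S) {i0 : σ} {m : ℕ} {F : MvPolynomial σ R}
    (hF : F ∈ W R i0 m) : map φ F ∈ W S i0 m := by
  intro s hs
  rw [coeff_map] at hs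
  exact hF s (fun h => hs (by rw [h, map_zero]))

lemma of_map_mem_W {S : Type*} [CommRing S] (φ : R →+* S) (hφ : Function.Injective φ) {i0 : σ}
    {m : ℕ} {F : MvPolynomial σ R} (hF : map φ F ∈ W S i0 m) : F ∈ W R i0 m := by
  intro s hs
  refine hF s ?_
  rw [coeff_map]
  exact fun h => hs ((map_eq_zero_iff φ hφ).mp h)

lemma eval_T {i0 : σ} {v : σ → R} (hv : v i0 = 1) (F : MvPolynomial σ R) :
    eval (Pi.single i0 1) (T i0 v F) = eval v F := by
  induction F using MvPolynomial.induction_on with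
  | C c => simp
  | add p q hp hq => simp only [map_add, hp, hq]
  | mul_X p k hp =>
    rw [map_mul, map_mul, hp, map_mul]
    by_cases h : k = i0
    · subst h; simp [T_X_self, hv]
    · simp [T_X_ne _ h, h]

/-- Evaluation at the coordinate point kills `W i0 1`. -/
lemma eval_of_mem {i0 : σ} {v : σ → R} (hv : v i0 = 1) {F : MvPolynomial σ R}
    (hF : T i0 v F ∈ W R i0 1) : eval v F = 0 := by
  have h1 := eval_T hv F
  rw [← h1, eval_eq]
  refine Finset.sum_eq_zero fun s hs => ?_
  have h2 := hF s (mem_support_iff.mp hs)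
  obtain ⟨i, hi, hi0⟩ : ∃ i ∈ Finset.univ.erase i0, s i ≠ 0 := by
    by_contra hcon
    push Not at hcon
    have : wt i0 s = 0 := Finset.sum_eq_zero hcon
    omega
  rw [Finset.prod_eq_zero (Finsupp.mem_support_iff.mpr hi0), mul_zero]
  rw [Pi.single_apply, if_neg (Finset.ne_of_mem_erase hi), zero_pow hi0]

end Basic

/-! ### The decomposition over `R[X_i ^ q]` -/

section Decomposition

variable {R : Type*} [CommRing R]

/-- Componentwise remainder. -/
noncomputable def rem (q : ℕ) (s : σ →₀ ℕ) : σ →₀ ℕ := s.mapRange (· % q) (Nat.zero_mod q)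

/-- Componentwise quotient. -/
noncomputable def quo (q : ℕ) (s : σ →₀ ℕ) : σ →₀ ℕ := s.mapRange (· / q) (Nat.zero_div q)

lemma quo_add_rem (q : ℕ) (s : σ →₀ ℕ) : q • quo q s + rem q s = s := by
  ext i
  simp [quo, rem, Nat.div_add_mod]

/-- Exponents with all entries less than `q`. -/
noncomputable def Box (σ : Type) [Fintype σ] [DecidableEq σ] (q : ℕ) : Finset (σ →₀ ℕ) :=
  Finset.finsupp Finset.univ (fun _ => Finset.range q)

lemma mem_Box {q : ℕ} {a : σ →₀ ℕ} : a ∈ Box σ q ↔ ∀ i, a i < q := by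
  rw [Box, Finset.mem_finsupp_iff]
  simp

lemma rem_mem_Box {q : ℕ} (hq : 0 < q) (s : σ →₀ ℕ) : rem q s ∈ Box σ q := by
  rw [mem_Box]
  intro i
  exact Nat.mod_lt _ hq

lemma eq_iff_rem_quo {q : ℕ} (hq : 0 < q) {a u s : σ →₀ ℕ} (ha : a ∈ Box σ q) :
    s = q • u + a ↔ rem q s = a ∧ quo q s = u := by
  rw [mem_Box] at ha
  constructor
  · rintro rfl
    constructor
    · ext i
      simp [rem, Nat.mul_add_mod, Nat.mod_eq_of_lt (ha i)]
    · ext i
      simp [quo, Nat.mul_add_div hq, Nat.div_eq_of_lt (ha i)]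
  · rintro ⟨rfl, rfl⟩
    exact (quo_add_rem q s).symm

/-- The coefficient of `X ^ a` in the expansion over `R[X_i ^ q]`. -/
noncomputable def cf (q : ℕ) (a : σ →₀ ℕ) : MvPolynomial σ R →ₗ[R] MvPolynomial σ R :=
  (basisMonomials σ R).constr R (fun s => if rem q s = a then monomial (quo q s) 1 else 0)

lemma cf_monomial (q : ℕ) (a s : σ →₀ ℕ) (c : R) :
    cf q a (monomial s c) = if rem q s = a then monomial (quo q s) c else 0 := by
  have h1 : (monomial s c : MvPolynomial σ R) = c • (basisMonomials σ R) s := by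
    rw [coe_basisMonomials, smul_monomial, smul_eq_mul, mul_one]
  rw [h1, map_smul, cf, Module.Basis.constr_basis]
  split_ifs
  · rw [smul_monomial, smul_eq_mul, mul_one]
  · rw [smul_zero]

lemma coeff_cf {q : ℕ} (hq : 0 < q) {a : σ →₀ ℕ} (ha : a ∈ Box σ q) (u : σ →₀ ℕ)
    (F : MvPolynomial σ R) : coeff u (cf q a F) = coeff (q • u + a) F := by
  induction F using MvPolynomial.induction_on' with
  | monomial s c =>
    rw [cf_monomial, coeff_monomial]
    by_cases h1 : rem q s = a
    · rw [if_pos h1, coeff_monomial]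
      by_cases h2 : quo q s = u
      · rw [if_pos h2, if_pos ((eq_iff_rem_quo hq ha).mpr ⟨h1, h2⟩)]
      · rw [if_neg h2, if_neg (fun h => h2 ((eq_iff_rem_quo hq ha).mp h).2)]
    · rw [if_neg h1, if_neg (fun h => h1 ((eq_iff_rem_quo hq ha).mp h).1), coeff_zero]
  | add p r hp hr => rw [map_add, coeff_add, coeff_add, hp, hr]

lemma sum_cf {q : ℕ} (hq : 0 < q) (F : MvPolynomial σ R) :
    ∑ a ∈ Box σ q, expand q (cf q a F) * monomial a 1 = F := by
  induction F using MvPolynomial.induction_on' with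
  | monomial s c =>
    rw [Finset.sum_eq_single (rem q s)]
    · rw [cf_monomial, if_pos rfl, expand_monomial, monomial_mul, mul_one, quo_add_rem]
    · intro b _ hb
      rw [cf_monomial, if_neg (Ne.symm hb), map_zero, zero_mul]
    · intro h; exact absurd (rem_mem_Box hq s) h
  | add p r hp hr =>
    conv_rhs => rw [← hp, ← hr]
    rw [← Finset.sum_add_distrib]
    refine Finset.sum_congr rfl fun a _ => ?_
    rw [map_add, map_add, add_mul]

lemma cf_expand_mul {q : ℕ} (hq : 0 < q) (a : σ →₀ ℕ) (G Y : MvPolynomial σ R) :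
    cf q a (expand q G * Y) = G * cf q a Y := by
  induction G using MvPolynomial.induction_on' with
  | monomial u c =>
    induction Y using MvPolynomial.induction_on' with
    | monomial s c' =>
      rw [expand_monomial, monomial_mul, cf_monomial, cf_monomial]
      have h1 := (eq_iff_rem_quo hq (rem_mem_Box hq s)
        (u := u + quo q s) (s := q • u + s)).mp (by
          rw [smul_add, add_assoc, quo_add_rem])
      rw [h1.1, h1.2]
      split_ifs
      · rw [monomial_mul]
      · rw [mul_zero]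
    | add p r hp hr => rw [mul_add, map_add, hp, hr, map_add, mul_add]
  | add p r hp hr => rw [map_add, add_mul, map_add, hp, hr, add_mul]

/-- The span of products `G(X ^ q) * Y`, `G ∈ J`, `Y` homogeneous of degree at most `t`. -/
noncomputable def MM (q : ℕ) (J : Ideal (MvPolynomial σ R)) (t : ℕ) :
    Submodule R (MvPolynomial σ R) :=
  Submodule.span R {H | ∃ G ∈ J, ∃ j ≤ t, ∃ Y : MvPolynomial σ R, Y.IsHomogeneous j ∧
    H = expand q G * Y}

lemma mem_MM_of {q : ℕ} (hq : 0 < q) {J : Ideal (MvPolynomial σ R)} {t : ℕ}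
    {F : MvPolynomial σ R}
    (h : ∀ a ∈ Box σ q, cf q a F ∈ J ∧ (cf q a F ≠ 0 → a.degree ≤ t)) : F ∈ MM q J t := by
  rw [← sum_cf hq F]
  refine Submodule.sum_mem _ fun a ha => ?_
  by_cases h0 : cf q a F = 0
  · rw [h0, map_zero, zero_mul]; exact Submodule.zero_mem _
  · exact Submodule.subset_span ⟨_, (h a ha).1, a.degree, (h a ha).2 h0, monomial a 1,
      isHomogeneous_monomial _ rfl, rfl⟩

lemma of_mem_MM {q : ℕ} (hq : 0 < q) {J : Ideal (MvPolynomial σ R)} {t : ℕ}
    {F : MvPolynomial σ R} (hF : F ∈ MM q J t) :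
    ∀ a ∈ Box σ q, cf q a F ∈ J ∧ (t < a.degree → cf q a F = 0) := by
  intro a ha
  induction hF using Submodule.span_induction with
  | mem H hH =>
    obtain ⟨G, hG, j, hj, Y, hY, rfl⟩ := hH
    rw [cf_expand_mul hq]
    refine ⟨J.mul_mem_right _ hG, fun ht => ?_⟩
    have : cf q a Y = 0 := by
      ext u
      rw [coeff_cf hq ha, coeff_zero]
      apply hY.coeff_eq_zero
      rw [map_add, map_nsmul]
      have : 0 ≤ q • u.degree := Nat.zero_le _
      omega
    rw [this, mul_zero]
  | zero => simp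
  | add x y _ _ hx hy =>
    rw [map_add]
    exact ⟨J.add_mem hx.1 hy.1, fun ht => by rw [hx.2 ht, hy.2 ht, add_zero]⟩
  | smul c x _ hx =>
    rw [map_smul]
    refine ⟨?_, fun ht => by rw [hx.2 ht, smul_zero]⟩
    rw [smul_eq_C_mul]
    exact J.mul_mem_left _ hx.1

/-- Transport along a change of coordinates commuting with `expand q`. -/
lemma MM_transport {q : ℕ} {J J' : Ideal (MvPolynomial σ R)} {t : ℕ}
    (S : MvPolynomial σ R →ₐ[R] MvPolynomial σ R)
    (hS : ∀ G, S (expand q G) = expand q (S G))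
    (hhom : ∀ {F : MvPolynomial σ R} {d : ℕ}, F.IsHomogeneous d → (S F).IsHomogeneous d)
    (hJ : ∀ G ∈ J, S G ∈ J') {F : MvPolynomial σ R} (hF : F ∈ MM q J t) : S F ∈ MM q J' t := by
  induction hF using Submodule.span_induction with
  | mem H hH =>
    obtain ⟨G, hG, j, hj, Y, hY, rfl⟩ := hH
    rw [map_mul, hS]
    exact Submodule.subset_span ⟨_, hJ G hG, j, hj, _, hhom hY, rfl⟩
  | zero => rw [map_zero]; exact Submodule.zero_mem _
  | add x y _ _ hx hy => rw [map_add]; exact Submodule.add_mem _ hx hy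
  | smul c x _ hx => rw [map_smul]; exact Submodule.smul_mem _ _ hx

lemma cf_mem_W {q : ℕ} (hq : 0 < q) {i0 : σ} {N m : ℕ} {a : σ →₀ ℕ} (ha : a ∈ Box σ q)
    {H : MvPolynomial σ R} (hH : H ∈ W R i0 N) (hm : q * m + wt i0 a < N + q) :
    cf q a H ∈ W R i0 m := by
  intro u hu
  rw [coeff_cf hq ha] at hu
  have h1 := hH _ hu
  rw [wt_add, wt_smul] at h1
  have h2 : q * m < q * (wt i0 u + 1) := by
    rw [mul_add, mul_one]; omega
  have := Nat.lt_of_mul_lt_mul_left h2
  omega

end Decomposition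

section Main

variable {K : Type*} [Field K]

lemma wt_Box_le {n q : ℕ} (hσ : Fintype.card σ = n + 1) (hq : 0 < q) (i0 : σ) {b : σ →₀ ℕ}
    (hb : b ∈ Box σ q) : wt i0 b ≤ n * (q - 1) := by
  rw [mem_Box] at hb
  have h1 : wt i0 b ≤ ∑ _i ∈ Finset.univ.erase i0, (q - 1) :=
    Finset.sum_le_sum fun i _ => by have := hb i; omega
  rw [Finset.sum_const, Finset.card_erase_of_mem (Finset.mem_univ _), Finset.card_univ, hσ] at h1
  simpa using h1

/-- The key lemma: from a form `F` vanishing to order `n * q` at all points we extract a nonzero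
form `G` of degree `(d - t) / q` vanishing to order at least `n - t / q`. -/
lemma exists_root {n q : ℕ} (hn : 0 < n) (hσ : Fintype.card σ = n + 1) (hq : 0 < q)
    {Λ : Type*} (i0 : Λ → σ) (v : Λ → σ → K)
    (hT : ∀ l G, T (i0 l) (v l) (expand q G) = expand q (T (i0 l) (v l) G))
    (hT' : ∀ l G, T (i0 l) (-(v l)) (expand q G) = expand q (T (i0 l) (-(v l)) G))
    {F : MvPolynomial σ K} {d : ℕ} (hF : F.IsHomogeneous d) (hF0 : F ≠ 0)
    (hW : ∀ l, T (i0 l) (v l) F ∈ W K (i0 l) (n * q)) :
    ∃ (t g : ℕ) (G : MvPolynomial σ K), G ≠ 0 ∧ G.IsHomogeneous g ∧ d = q * g + t ∧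
      ∀ m, (m = 1 ∨ q * m + t < n * q + q) → ∀ l, T (i0 l) (v l) G ∈ W K (i0 l) m := by
  classical
  have hne : ((Box σ q).filter fun a => cf q a F ≠ 0).Nonempty := by
    by_contra hcon
    rw [Finset.not_nonempty_iff_eq_empty, Finset.filter_eq_empty_iff] at hcon
    apply hF0
    rw [← sum_cf hq F]
    refine Finset.sum_eq_zero fun a ha => ?_
    have := hcon ha
    rw [not_not] at this
    rw [this, map_zero, zero_mul]
  obtain ⟨a, ha, hmax⟩ := Finset.exists_max_image _ (fun a : σ →₀ ℕ => a.degree) hne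
  rw [Finset.mem_filter] at ha
  obtain ⟨haB, hG0⟩ := ha
  obtain ⟨u0, hu0⟩ : ∃ u0, coeff u0 (cf q a F) ≠ 0 := by
    by_contra hcon
    push Not at hcon
    exact hG0 (by ext u; rw [hcon u, coeff_zero])
  have hdeg : ∀ u, coeff u (cf q a F) ≠ 0 → d = q * u.degree + a.degree := by
    intro u hu
    rw [coeff_cf hq haB] at hu
    have h1 : (q • u + a).degree = d := by
      by_contra h
      exact hu (hF.coeff_eq_zero h)
    rw [← h1, map_add, map_nsmul, smul_eq_mul]
  refine ⟨a.degree, u0.degree, cf q a F, hG0, ?_, hdeg u0 hu0, ?_⟩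
  · intro u hu
    have h1 := hdeg u hu
    have h2 := hdeg u0 hu0
    have h3 : q * u.degree = q * u0.degree := by omega
    have h4 := Nat.eq_of_mul_eq_mul_left hq h3
    rw [← h4]
    simp only [Finsupp.degree_eq_weight_one, Pi.one_def]
  · intro m hm l
    have h1 : F ∈ MM q ⊤ a.degree := by
      refine mem_MM_of hq fun b hb => ⟨Submodule.mem_top, fun hb0 => ?_⟩
      exact hmax b (Finset.mem_filter.mpr ⟨hb, hb0⟩)
    have h2 : T (i0 l) (v l) F ∈ MM q ⊤ a.degree :=
      MM_transport _ (hT l) (fun h => T_hom _ _ h) (fun _ _ => Submodule.mem_top) h1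
    have h3 : T (i0 l) (v l) F ∈ MM q (W K (i0 l) m) a.degree := by
      refine mem_MM_of hq fun b hb => ?_
      have h4 := (of_mem_MM hq h2 b hb).2
      by_cases hb0 : cf q b (T (i0 l) (v l) F) = 0
      · rw [hb0]
        exact ⟨Submodule.zero_mem _, fun h => absurd rfl h⟩
      · have hle : b.degree ≤ a.degree := by
          by_contra hcon
          exact hb0 (h4 (by omega))
        refine ⟨cf_mem_W hq hb (hW l) ?_, fun _ => hle⟩
        rcases hm with hm | hm
        · subst hm
          have h5 := wt_Box_le hσ hq (i0 l) hb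
          have h6 : n * (q - 1) + n = n * q := by
            rw [← Nat.mul_succ]
            congr 1
            omega
          omega
        · have h5 := wt_le_degree (i0 l) b
          omega
    have h4 : F ∈ MM q ((W K (i0 l) m).comap (T (i0 l) (v l))) a.degree := by
      rw [← T_neg_T (i0 l) (v l) F]
      refine MM_transport _ (hT' l) (fun h => T_hom _ _ h) (fun G hG => ?_) h3
      rw [Ideal.mem_comap, T_T_neg]
      exact hG
    exact (of_mem_MM hq h4 a haB).1

/-- The bound for exponents which are powers of the cardinality of a finite field. -/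
lemma charp_bound {n q : ℕ} (hn : 0 < n) (hσ : Fintype.card σ = n + 1) (hq : 0 < q)
    {Λ : Type*} (i0 : Λ → σ) (v : Λ → σ → K)
    (hT : ∀ l G, T (i0 l) (v l) (expand q G) = expand q (T (i0 l) (v l) G))
    (hT' : ∀ l G, T (i0 l) (-(v l)) (expand q G) = expand q (T (i0 l) (-(v l)) G))
    {α : ℕ} (hα : ∀ m, 1 ≤ m → m ≤ n → ∀ (g : ℕ) (G : MvPolynomial σ K), G ≠ 0 →
      G.IsHomogeneous g → (∀ l, T (i0 l) (v l) G ∈ W K (i0 l) m) → α + m ≤ g + 1)
    {F : MvPolynomial σ K} {d : ℕ} (hF : F.IsHomogeneous d) (hF0 : F ≠ 0)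
    (hW : ∀ l, T (i0 l) (v l) F ∈ W K (i0 l) (n * q)) : q * (α + n) ≤ d + q := by
  obtain ⟨t, g, G, hG0, hG, hd, hm⟩ := exists_root hn hσ hq i0 v hT hT' hF hF0 hW
  obtain ⟨r, hr⟩ : ∃ r, r = t / q := ⟨_, rfl⟩
  have h2 : q * r ≤ t := by rw [hr]; exact Nat.mul_div_le t q
  have h2' : t < q * r + q := by
    have := Nat.lt_mul_div_succ t hq
    rw [Nat.mul_succ, ← hr] at this
    exact this
  by_cases hc : r < n
  · have h1 := hα (n - r) (by omega) (by omega) g G hG0 hG (hm _ (Or.inr ?_))
    · have h3 : q * (α + n) ≤ q * (g + 1 + r) := Nat.mul_le_mul_left _ (by omega)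
      have h4 : q * (g + 1 + r) = q * g + q + q * r := by ring
      omega
    · have h3 : q * (n - r) + q * r = n * q := by
        rw [← mul_add, Nat.sub_add_cancel hc.le, mul_comm]
      omega
  · have h1 := hα 1 le_rfl hn g G hG0 hG (hm _ (Or.inl rfl))
    have h3 : q * n ≤ q * r := Nat.mul_le_mul_left _ (by omega)
    have h4 : q * α ≤ q * g := Nat.mul_le_mul_left _ (by omega)
    have h5 : q * (α + n) = q * α + q * n := by ring
    omega

/-- Derivatives: if no nonzero form of degree less than `α` vanishes at all the points, then forms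
vanishing to order `m` have degree at least `α + m - 1`. -/
lemma order_bound {Λ : Type*} [Nonempty Λ] (i0 : Λ → σ) (v : Λ → σ → K) {α N : ℕ}
    (hα : ∀ (g : ℕ) (G : MvPolynomial σ K), G ≠ 0 →
      G.IsHomogeneous g → (∀ l, T (i0 l) (v l) G ∈ W K (i0 l) 1) → α ≤ g)
    (hchar : ∀ g : ℕ, 0 < g → g < α + N → (g : K) ≠ 0) :
    ∀ m, 1 ≤ m → m ≤ N → ∀ (g : ℕ) (G : MvPolynomial σ K), G ≠ 0 →
      G.IsHomogeneous g → (∀ l, T (i0 l) (v l) G ∈ W K (i0 l) m) → α + m ≤ g + 1 := by
  intro m hm
  induction m, hm using Nat.le_induction with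
  | base =>
    intro _ g G hG0 hG hW
    have := hα g G hG0 hG hW
    omega
  | succ m hm ih =>
    intro hN g G hG0 hG hW
    by_contra hcon
    have hW1 : ∀ l, T (i0 l) (v l) G ∈ W K (i0 l) 1 := fun l => W_mono (by omega) (hW l)
    have hg0 : 0 < g := by
      rcases Nat.eq_zero_or_pos g with h | h
      · exfalso
        subst h
        obtain ⟨l⟩ := (inferInstance : Nonempty Λ)
        have h1 := hW1 l
        rw [← totalDegree_zero_iff_isHomogeneous, totalDegree_eq_zero_iff_eq_C] at hG
        rw [hG, T_C] at h1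
        have h2 := h1 0 (by
          rw [coeff_zero_C]
          intro h0
          apply hG0
          rw [hG, h0, map_zero])
        simp [wt] at h2
      · exact h
    have hgK : (g : K) ≠ 0 := hchar g hg0 (by omega)
    have heuler := hG.sum_X_mul_pderiv
    obtain ⟨i, hi⟩ : ∃ i, pderiv i G ≠ 0 := by
      by_contra hc
      push Not at hc
      rw [Finset.sum_eq_zero (fun i _ => by rw [hc i, mul_zero])] at heuler
      have h1 : (C (g : K) : MvPolynomial σ K) * G = 0 := by
        rw [heuler, nsmul_eq_mul]; simp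
      rcases mul_eq_zero.mp h1 with h | h
      · rw [C_eq_zero] at h; exact hgK h
      · exact hG0 h
    have h1 := ih (by omega) (g - 1) (pderiv i G) hi hG.pderiv fun l => T_pderiv_mem (hW l) i
    omega

end Main

end Pool.Agent.Helper16
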