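import Pool.Agent.Helper16.ReductionModP
import Pool.Agent.Helper16.FatPoints

set_option autoImplicit false
set_option linter.unusedSectionVars false

/-!
# The Chudnovsky / Harbourne–Huneke bound for finite sets of points
-/

namespace Pool.Agent.Helper16

open MvPolynomial

section FiniteField

variable {σ : Type} [Fintype σ] [DecidableEq σ] {K : Type} [Field K] [Finite K]

lemma one_lt_card_pow : 1 < Nat.card K := Finite.one_lt_card

lemma pow_card_pow' (N : ℕ) (x : K) : x ^ (Nat.card K ^ N) = x := by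
  have := Fintype.ofFinite K
  rw [Nat.card_eq_fintype_card]
  exact FiniteField.pow_card_pow N x

lemma add_pow_card_pow (N : ℕ) (x y : MvPolynomial σ K) :
    (x + y) ^ (Nat.card K ^ N) = x ^ (Nat.card K ^ N) + y ^ (Nat.card K ^ N) := by
  have := Fintype.ofFinite K
  obtain ⟨p, hp⟩ := CharP.exists K
  obtain ⟨n, hn, hc⟩ := FiniteField.card K p
  have := Fact.mk hn
  rw [Nat.card_eq_fintype_card, hc, ← pow_mul]
  exact add_pow_char_pow x y p _

lemma T_expand (N : ℕ) (i0 : σ) (v : σ → K) (G : MvPolynomial σ K) :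
    T i0 v (expand (Nat.card K ^ N) G) = expand (Nat.card K ^ N) (T i0 v G) := by
  have h : (T i0 v).comp (expand (Nat.card K ^ N)) = (expand (Nat.card K ^ N)).comp (T i0 v) := by
    apply MvPolynomial.algHom_ext
    intro i
    rw [AlgHom.comp_apply, AlgHom.comp_apply, expand_X, map_pow]
    by_cases h : i = i0
    · subst h; rw [T_X_self, expand_X]
    · rw [T_X_ne v h, map_add, map_mul, expand_X, expand_X, expand_C, add_pow_card_pow, mul_pow,
        ← map_pow, pow_card_pow']
  exact DFunLike.congr_fun h G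

/-- The asymptotic bound over a finite field. -/
lemma finite_field_bound {n r : ℕ} (hn : 0 < n) (hr : 0 < r) (hσ : Fintype.card σ = n + 1)
    {Λ : Type*} (i0 : Λ → σ) (v : Λ → σ → K)
    {α : ℕ} (hα : ∀ m, 1 ≤ m → m ≤ n → ∀ (g : ℕ) (G : MvPolynomial σ K), G ≠ 0 →
      G.IsHomogeneous g → (∀ l, T (i0 l) (v l) G ∈ W K (i0 l) m) → α + m ≤ g + 1)
    {F : MvPolynomial σ K} {d : ℕ} (hF : F.IsHomogeneous d) (hF0 : F ≠ 0)
    (hW : ∀ l, T (i0 l) (v l) F ∈ W K (i0 l) (r * n)) : r * (α + n) ≤ d + r := by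
  by_contra hcon
  -- choose `q` large
  obtain ⟨N, hN⟩ : ∃ N, d * r < Nat.card K ^ N := by
    obtain ⟨N, hN⟩ := pow_unbounded_of_one_lt (d * r) (one_lt_card_pow (K := K))
    exact ⟨N, hN⟩
  obtain ⟨q, hq⟩ : ∃ q, q = Nat.card K ^ N := ⟨_, rfl⟩
  rw [← hq] at hN
  have hq0 : 0 < q := by omega
  obtain ⟨a, ha1, ha2⟩ : ∃ a, q ≤ r * a ∧ r * a ≤ q + r := by
    refine ⟨q / r + 1, ?_, ?_⟩
    · exact (Nat.lt_mul_div_succ q hr).le
    · rw [Nat.mul_succ]
      have := Nat.mul_div_le q r
      omega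
  have hFa : (F ^ a).IsHomogeneous (d * a) := hF.pow a
  have hFa0 : F ^ a ≠ 0 := pow_ne_zero _ hF0
  have hWa : ∀ l, T (i0 l) (v l) (F ^ a) ∈ W K (i0 l) (n * q) := by
    intro l
    rw [map_pow]
    refine W_mono ?_ (W_pow (hW l) a)
    calc n * q ≤ n * (r * a) := Nat.mul_le_mul_left _ ha1
      _ = r * n * a := by ring
  have hb := charp_bound hn hσ hq0 i0 v
    (fun l G => by rw [hq]; exact T_expand N _ _ G) (fun l G => by rw [hq]; exact T_expand N _ _ G)
    hα hFa hFa0 hWa
  -- arithmetic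
  have h1 : r * (q * (α + n)) ≤ r * (d * a + q) := Nat.mul_le_mul_left _ hb
  have h2 : r * (d * a + q) = d * (r * a) + q * r := by ring
  have h3 : d * (r * a) ≤ d * (q + r) := Nat.mul_le_mul_left _ ha2
  have h4 : q * (d + r + 1) ≤ q * (r * (α + n)) := Nat.mul_le_mul_left _ (by omega)
  have h5 : q * (r * (α + n)) = r * (q * (α + n)) := by ring
  have h6 : d * (q + r) = q * d + d * r := by ring
  have h7 : q * (d + r + 1) = q * d + q * r + q := by ring
  omega

end FiniteField

/-! ### Translation between ideals of points and the ideals `W` -/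

section Field

variable {σ : Type} [Fintype σ] [DecidableEq σ] {k : Type*} [Field k]

lemma eval_single_eq {i0 : σ} {H : MvPolynomial σ k} {d : ℕ} (hH : H.IsHomogeneous d) :
    eval (Pi.single i0 1) H = coeff (Finsupp.single i0 d) H := by
  rw [eval_eq, Finset.sum_eq_single (Finsupp.single i0 d)]
  · rw [Finset.prod_eq_one, mul_one]
    intro i hi
    have : i = i0 := by
      by_contra h
      rw [Finsupp.mem_support_iff, Finsupp.single_apply, if_neg (Ne.symm h)] at hi
      exact hi rfl
    rw [this, Pi.single_eq_same, one_pow]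
  · intro s hs hne
    have hdeg : s.degree = d := by
      by_contra h
      exact (mem_support_iff.mp hs) (hH.coeff_eq_zero h)
    obtain ⟨i, hi, hi0⟩ : ∃ i, i ≠ i0 ∧ s i ≠ 0 := by
      by_contra hcon
      push Not at hcon
      apply hne
      have hwt : wt i0 s = 0 := Finset.sum_eq_zero fun i hi => hcon i (Finset.ne_of_mem_erase hi)
      have hd := degree_eq_wt i0 s
      ext i
      rw [Finsupp.single_apply]
      split_ifs with h
      · subst h; omega
      · exact hcon i (Ne.symm h)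
    rw [Finset.prod_eq_zero (Finsupp.mem_support_iff.mpr hi0), mul_zero]
    rw [Pi.single_apply, if_neg hi, zero_pow hi0]
  · intro h
    rw [notMem_support_iff] at h
    rw [h, zero_mul]

lemma mem_W_one_of_eval {i0 : σ} {v : σ → k} (hv : v i0 = 1) {G : MvPolynomial σ k} {d : ℕ}
    (hG : G.IsHomogeneous d) (h0 : eval v G = 0) : T i0 v G ∈ W k i0 1 := by
  intro s hs
  have hT := T_hom i0 v hG
  rw [← eval_T hv, eval_single_eq hT] at h0
  by_contra hcon
  have hwt : wt i0 s = 0 := by omega
  have hdeg : s.degree = d := by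
    by_contra h
    exact hs (hT.coeff_eq_zero h)
  have hs' : s = Finsupp.single i0 d := by
    have hd := degree_eq_wt i0 s
    ext i
    rw [Finsupp.single_apply]
    split_ifs with h
    · subst h; omega
    · exact Finset.sum_eq_zero_iff.mp hwt i (Finset.mem_erase.mpr ⟨Ne.symm h, Finset.mem_univ _⟩)
  rw [hs'] at hs
  exact hs h0

/-- The ideal generated by the linear forms vanishing at `w`. -/
noncomputable def ptIdeal (w : σ → k) : Ideal (MvPolynomial σ k) :=
  Ideal.span {g : MvPolynomial σ k | g.IsHomogeneous 1 ∧ eval w g = 0}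

lemma eval_smul_hom {F : MvPolynomial σ k} {d : ℕ}
    (hF : F.IsHomogeneous d) (c : k) (v : σ → k) :
    eval (c • v) F = c ^ d * eval v F := by
  rw [eval_eq, eval_eq, Finset.mul_sum]
  refine Finset.sum_congr rfl fun s hs => ?_
  have hd : ∑ i ∈ s.support, s i = d := (hF.degree_eq_sum_deg_support hs).symm
  have : ∏ i ∈ s.support, (c • v) i ^ s i = c ^ d * ∏ i ∈ s.support, v i ^ s i := by
    simp only [Pi.smul_apply, smul_eq_mul, mul_pow, Finset.prod_mul_distrib]
    rw [Finset.prod_pow_eq_pow_sum, hd]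
  rw [this]; ring

lemma mem_W_of_mem_ptIdeal_pow {w v : σ → k} {i0 : σ} {c : k} (hvw : v = c • w)
    (hv : v i0 = 1) {F : MvPolynomial σ k} {m : ℕ} (hF : F ∈ ptIdeal w ^ m) :
    T i0 v F ∈ W k i0 m := by
  have h1 : ptIdeal w ≤ (W k i0 1).comap (T i0 v) := by
    rw [ptIdeal, Ideal.span_le]
    rintro g ⟨hg1, hg2⟩
    refine mem_W_one_of_eval hv hg1 ?_
    rw [hvw, eval_smul_hom hg1, hg2, mul_zero]
  have h2 : ptIdeal w ^ m ≤ (W k i0 m).comap (T i0 v) :=
    calc ptIdeal w ^ m ≤ ((W k i0 1).comap (T i0 v)) ^ m := Ideal.pow_right_mono h1 m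
      _ ≤ ((W k i0 1) ^ m).comap (T i0 v) := Ideal.le_comap_pow _ m
      _ ≤ (W k i0 m).comap (T i0 v) := Ideal.comap_mono (W_one_pow_le i0 m)
  exact h2 hF

lemma mem_ptIdeal_of_eval {w v : σ → k} {i0 : σ} {c : k} (hwv : w = c • v) (hv : v i0 = 1)
    {G : MvPolynomial σ k} {e : ℕ} (hG : G.IsHomogeneous e) (h0 : eval v G = 0) :
    G ∈ ptIdeal w := by
  have hX : ∀ i, (X i - C (v i) * X i0 : MvPolynomial σ k) ∈ ptIdeal w := by
    intro i
    refine Ideal.subset_span ⟨(isHomogeneous_X _ _).sub (isHomogeneous_C_mul_X _ _), ?_⟩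
    rw [hwv]
    simp [hv]
    ring
  have h1 : aeval (fun i => (C (v i) * X i0 : MvPolynomial σ k)) G = 0 := by
    rw [aeval_def, eval₂_eq]
    have : ∀ s ∈ G.support, algebraMap k (MvPolynomial σ k) (coeff s G) *
        ∏ i ∈ s.support, (C (v i) * X i0 : MvPolynomial σ k) ^ s i =
        C (coeff s G * ∏ i ∈ s.support, v i ^ s i) * X i0 ^ e := by
      intro s hs
      have hd : ∑ i ∈ s.support, s i = e := (hG.degree_eq_sum_deg_support hs).symm
      simp only [mul_pow, Finset.prod_mul_distrib, algebraMap_eq]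
      rw [Finset.prod_pow_eq_pow_sum, hd, map_mul, map_prod]
      simp only [map_pow]
      ring
    rw [Finset.sum_congr rfl this, ← Finset.sum_mul, ← map_sum, ← eval_eq, h0, map_zero, zero_mul]
  have h2 : Ideal.Quotient.mk (ptIdeal w) G =
      Ideal.Quotient.mk (ptIdeal w) (aeval (fun i => (C (v i) * X i0 : MvPolynomial σ k)) G) := by
    have h3 : (Ideal.Quotient.mkₐ k (ptIdeal w)) =
        (Ideal.Quotient.mkₐ k (ptIdeal w)).comp
          (aeval (fun i => (C (v i) * X i0 : MvPolynomial σ k))) := by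
      apply MvPolynomial.algHom_ext
      intro i
      rw [AlgHom.comp_apply, aeval_X, Ideal.Quotient.mkₐ_eq_mk, Ideal.Quotient.eq]
      exact hX i
    exact DFunLike.congr_fun h3 G
  rw [h1, map_zero] at h2
  exact Ideal.Quotient.eq_zero_iff_mem.mp h2

/-- Linear algebra: a left inverse for the evaluation of forms of degree `e` at points. -/
lemma exists_inverse {Λ : Type*} [Fintype Λ] (v : Λ → σ → k) (e : ℕ)
    (h : ∀ G : MvPolynomial σ k, G.IsHomogeneous e → (∀ l, eval (v l) G = 0) → G = 0) :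
    ∃ B : (σ →₀ ℕ) → Λ → k, ∀ s s' : σ →₀ ℕ, s.degree = e → s'.degree = e →
      ∑ l, B s l * ∏ i, v l i ^ s' i = if s = s' then 1 else 0 := by
  classical
  let M : Finset (σ →₀ ℕ) := Finset.univ.finsuppAntidiag e
  have hM : ∀ s, s ∈ M ↔ s.degree = e := by
    intro s
    rw [Finset.mem_finsuppAntidiag, Finsupp.degree_eq_sum]
    simp
  let L : (M → k) →ₗ[k] (Λ → k) :=
    { toFun := fun c l => ∑ s : M, c s * ∏ i, v l i ^ (s : σ →₀ ℕ) i
      map_add' := by
        intro c c'
        ext l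
        simp [add_mul, Finset.sum_add_distrib]
      map_smul' := by
        intro a c
        ext l
        simp [mul_assoc, Finset.mul_sum] }
  have hL : LinearMap.ker L = ⊥ := by
    rw [LinearMap.ker_eq_bot']
    intro c hc
    have h1 : (∑ s : M, monomial (s : σ →₀ ℕ) (c s) : MvPolynomial σ k) = 0 := by
      apply h
      · refine IsHomogeneous.sum _ _ _ fun s _ => isHomogeneous_monomial _ ((hM _).mp s.2)
      · intro l
        rw [map_sum]
        refine Eq.trans ?_ (congrFun hc l)
        refine Finset.sum_congr rfl fun s _ => ?_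
        rw [eval_monomial, Finsupp.prod_fintype _ _ (fun i => pow_zero _)]
    ext s
    have h2 := congrArg (coeff (s : σ →₀ ℕ)) h1
    rw [coeff_sum, coeff_zero, Finset.sum_eq_single s] at h2
    · rw [coeff_monomial, if_pos rfl] at h2
      exact h2
    · intro t _ hts
      rw [coeff_monomial, if_neg (fun h => hts (Subtype.ext h))]
    · intro h; exact absurd (Finset.mem_univ s) h
  obtain ⟨g, hg⟩ := L.exists_leftInverse_of_injective hL
  refine ⟨fun s l => if hs : s ∈ M then g (Pi.single l 1) ⟨s, hs⟩ else 0, ?_⟩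
  intro s s' hs hs'
  have hsM := (hM s).mpr hs
  have hsM' := (hM s').mpr hs'
  have h1 : g (L (Pi.single ⟨s', hsM'⟩ 1)) ⟨s, hsM⟩ = if s = s' then 1 else 0 := by
    have := DFunLike.congr_fun hg (Pi.single ⟨s', hsM'⟩ 1)
    rw [LinearMap.comp_apply, LinearMap.id_apply] at this
    rw [this, Pi.single_apply]
    simp only [Subtype.mk.injEq]
  rw [← h1]
  have h2 : L (Pi.single ⟨s', hsM'⟩ 1) = ∑ l, (∏ i, v l i ^ s' i) • (Pi.single l 1 : Λ → k) := by
    ext l
    simp only [L, LinearMap.coe_mk, AddHom.coe_mk]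
    rw [Finset.sum_eq_single ⟨s', hsM'⟩]
    · rw [Finset.sum_apply, Finset.sum_eq_single l]
      · simp
      · intro b _ hb; simp [Ne.symm hb]
      · simp
    · intro b _ hb; rw [Pi.single_apply, if_neg hb, zero_mul]
    · intro h; exact absurd (Finset.mem_univ _) h
  rw [h2, map_sum, Finset.sum_apply]
  refine Finset.sum_congr rfl fun l _ => ?_
  simp only [map_smul, Pi.smul_apply, smul_eq_mul, dif_pos hsM]
  ring

/-- If the evaluation matrix has a left inverse, forms of degree `e` vanishing at the points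
vanish. -/
lemma eq_zero_of_inverse {Λ : Type*} [Fintype Λ] (v : Λ → σ → k) (e : ℕ)
    (B : (σ →₀ ℕ) → Λ → k) (hB : ∀ s s' : σ →₀ ℕ, s.degree = e → s'.degree = e →
      ∑ l, B s l * ∏ i, v l i ^ s' i = if s = s' then 1 else 0)
    (G : MvPolynomial σ k) (hG : G.IsHomogeneous e) (h0 : ∀ l, eval (v l) G = 0) : G = 0 := by
  classical
  ext s
  rw [coeff_zero]
  by_cases hs : s.degree = e
  · have hdeg : ∀ t ∈ G.support, t.degree = e := by
      intro t ht
      by_contra h
      exact (mem_support_iff.mp ht) (hG.coeff_eq_zero h)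
    have h1 : coeff s G = ∑ t ∈ G.support, coeff t G * (if s = t then 1 else 0) := by
      simp only [mul_ite, mul_one, mul_zero]
      rw [Finset.sum_ite_eq]
      split_ifs with h
      · rfl
      · exact notMem_support_iff.mp h
    rw [h1, Finset.sum_congr rfl fun t ht => by rw [← hB s t hs (hdeg t ht)]]
    simp only [Finset.mul_sum]
    rw [Finset.sum_comm]
    refine Finset.sum_eq_zero fun l _ => ?_
    have h2 := h0 l
    rw [eval_eq'] at h2
    have : ∑ t ∈ G.support, coeff t G * (B s l * ∏ i, v l i ^ t i) =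
        B s l * ∑ t ∈ G.support, coeff t G * ∏ i, v l i ^ t i := by
      rw [Finset.mul_sum]
      refine Finset.sum_congr rfl fun t _ => ?_
      ring
    rw [this, h2, mul_zero]
  · exact hG.coeff_eq_zero hs

end Field

/-! ### The bound in characteristic zero -/

section CharZero

variable {σ : Type} [Fintype σ] [DecidableEq σ] {k : Type} [Field k] [CharZero k]

/-- **The Harbourne–Huneke / Chudnovsky bound**, in coordinates: if no nonzero form of degree
`α - 1` vanishes at the points `v l`, then every nonzero form of degree `d` vanishing to order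
`r * n` at these points satisfies `d ≥ r * α + r * (n - 1)`. -/
theorem main_bound {n r : ℕ} (hn : 0 < n) (hr : 0 < r) (hσ : Fintype.card σ = n + 1)
    {Λ : Type} [Fintype Λ] [Nonempty Λ] (i0 : Λ → σ) (v : Λ → σ → k)
    (hv : ∀ l, v l (i0 l) = 1) {α : ℕ} (hα0 : 0 < α)
    (hα : ∀ G : MvPolynomial σ k, G.IsHomogeneous (α - 1) → (∀ l, eval (v l) G = 0) → G = 0)
    {F : MvPolynomial σ k} {d : ℕ} (hF : F.IsHomogeneous d) (hF0 : F ≠ 0)
    (hW : ∀ l, T (i0 l) (v l) F ∈ W k (i0 l) (r * n)) : r * (α + n) ≤ d + r := by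
  classical
  obtain ⟨B, hB⟩ := exists_inverse v (α - 1) hα
  obtain ⟨s0, hs0⟩ : ∃ s0, coeff s0 F ≠ 0 := by
    by_contra hcon
    push Not at hcon
    exact hF0 (by ext u; rw [hcon u, coeff_zero])
  let M : Finset (σ →₀ ℕ) := Finset.univ.finsuppAntidiag (α - 1)
  have hM : ∀ s, s ∈ M ↔ s.degree = α - 1 := by
    intro s
    rw [Finset.mem_finsuppAntidiag, Finsupp.degree_eq_sum]
    simp
  let S : Finset k := (Finset.univ.image fun p : Λ × σ => v p.1 p.2) ∪ F.coeffs ∪
    ((M ×ˢ Finset.univ).image fun p : (σ →₀ ℕ) × Λ => B p.1 p.2) ∪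
    {(coeff s0 F)⁻¹, (((α + n).factorial : k))⁻¹}
  let A : Subalgebra ℤ k := Algebra.adjoin ℤ (S : Set k)
  have hSA : ∀ x ∈ S, x ∈ A := fun x hx => Algebra.subset_adjoin (Finset.mem_coe.mpr hx)
  have hft : Algebra.FiniteType ℤ A :=
    (Subalgebra.fg_iff_finiteType _).mp (Subalgebra.fg_adjoin_finset S)
  have hft' : (Int.castRingHom A).FiniteType := by
    have h1 : (algebraMap ℤ A).FiniteType := RingHom.finiteType_algebraMap.mpr hft
    have h2 : algebraMap ℤ A = Int.castRingHom A := RingHom.ext_int _ _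
    rwa [h2] at h1
  have hnt : Nontrivial A := inferInstance
  obtain ⟨K, _, _, ⟨φ⟩⟩ := exists_finite_field_hom A hft'
  let ι : A →+* k := A.val.toRingHom
  have hι : Function.Injective ι := Subtype.val_injective
  -- lifts to `A`
  have hvmem : ∀ l i, v l i ∈ A := fun l i => hSA _ (by
    simp only [S, Finset.mem_union]
    exact Or.inl (Or.inl (Or.inl (Finset.mem_image.mpr ⟨(l, i), Finset.mem_univ _, rfl⟩))))
  have hBmem : ∀ s ∈ M, ∀ l, B s l ∈ A := fun s hs l => hSA _ (by
    simp only [S, Finset.mem_union]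
    exact Or.inl (Or.inr (Finset.mem_image.mpr ⟨(s, l), by simp [hs], rfl⟩)))
  have hc0mem : (coeff s0 F)⁻¹ ∈ A := hSA _ (by simp [S])
  have hfacmem : (((α + n).factorial : k))⁻¹ ∈ A := hSA _ (by simp [S])
  obtain ⟨FA, hFA⟩ : F ∈ Set.range (MvPolynomial.map ι) := by
    rw [mem_range_map_iff_coeffs_subset]
    intro x hx
    refine ⟨⟨x, hSA _ ?_⟩, rfl⟩
    simp only [S, Finset.mem_union]
    exact Or.inl (Or.inl (Or.inr (Finset.mem_coe.mp hx)))
  let vA : Λ → σ → A := fun l i => ⟨v l i, hvmem l i⟩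
  let vK : Λ → σ → K := fun l i => φ (vA l i)
  have hvK : ∀ l, vK l (i0 l) = 1 := by
    intro l
    have : vA l (i0 l) = 1 := Subtype.ext (hv l)
    simp only [vK, this, map_one]
  -- the form over `K`
  have hFAh : FA.IsHomogeneous d := by
    refine IsHomogeneous.of_map (f := ι) hι ?_
    rw [hFA]; exact hF
  have hFKh : (map φ FA).IsHomogeneous d := hFAh.map φ
  have hFK0 : map φ FA ≠ 0 := by
    intro h
    have h1 := congrArg (coeff s0) h
    rw [coeff_map, coeff_zero] at h1
    have h2 : coeff s0 FA * ⟨(coeff s0 F)⁻¹, hc0mem⟩ = 1 := by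
      apply hι
      rw [map_mul, map_one, ← coeff_map, hFA]
      exact mul_inv_cancel₀ hs0
    have h3 := congrArg φ h2
    rw [map_mul, h1, zero_mul, map_one] at h3
    exact zero_ne_one h3
  have hWK : ∀ l, T (i0 l) (vK l) (map φ FA) ∈ W K (i0 l) (r * n) := by
    intro l
    have h1 : map ι (T (i0 l) (vA l) FA) = T (i0 l) (v l) F := by
      rw [map_T, hFA]
      rfl
    have h2 : T (i0 l) (vA l) FA ∈ W A (i0 l) (r * n) := by
      apply of_map_mem_W ι hι
      rw [h1]; exact hW l
    have h3 := map_mem_W φ h2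
    rw [map_T] at h3
    exact h3
  -- the left inverse over `K`
  let BK : (σ →₀ ℕ) → Λ → K := fun s l => if hs : s ∈ M then φ ⟨B s l, hBmem s hs l⟩ else 0
  have hBK : ∀ s s' : σ →₀ ℕ, s.degree = α - 1 → s'.degree = α - 1 →
      ∑ l, BK s l * ∏ i, vK l i ^ s' i = if s = s' then 1 else 0 := by
    intro s s' hs hs'
    have hsM := (hM s).mpr hs
    have h1 : ∑ l, (⟨B s l, hBmem s hsM l⟩ : A) * ∏ i, vA l i ^ s' i = if s = s' then 1 else 0 := by
      apply hι
      have h2 := hB s s' hs hs'
      rw [map_sum]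
      simp only [map_mul, map_prod, map_pow]
      refine Eq.trans h2 ?_
      split_ifs <;> simp
    have h2 := congrArg φ h1
    rw [map_sum] at h2
    simp only [map_mul, map_prod, map_pow] at h2
    have h3 : φ (if s = s' then 1 else 0) = if s = s' then 1 else 0 := by
      split_ifs <;> simp
    rw [h3] at h2
    rw [← h2]
    refine Finset.sum_congr rfl fun l _ => ?_
    simp only [BK, dif_pos hsM, vK]
  have hα1 : ∀ (g : ℕ) (G : MvPolynomial σ K), G ≠ 0 →
      G.IsHomogeneous g → (∀ l, T (i0 l) (vK l) G ∈ W K (i0 l) 1) → α ≤ g := by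
    intro g G hG0 hG hGW
    by_contra hcon
    obtain ⟨l0⟩ := (inferInstance : Nonempty Λ)
    have h1 : (G * X (i0 l0) ^ (α - 1 - g)).IsHomogeneous (α - 1) := by
      have h2 := hG.mul (isHomogeneous_X_pow (R := K) (i0 l0) (α - 1 - g))
      have h3 : g + (α - 1 - g) = α - 1 := by omega
      rwa [h3] at h2
    have h2 := eq_zero_of_inverse vK (α - 1) BK hBK _ h1 (fun l => by
      rw [map_mul, eval_of_mem (hvK l) (hGW l), zero_mul])
    rcases mul_eq_zero.mp h2 with h | h
    · exact hG0 h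
    · exact (pow_ne_zero _ (X_ne_zero _)) h
  have hchar : ∀ g : ℕ, 0 < g → g < α + n → (g : K) ≠ 0 := by
    intro g hg0 hg h0
    obtain ⟨c, hc⟩ : g ∣ (α + n).factorial := Nat.dvd_factorial hg0 hg.le
    have h1 : (((α + n).factorial : ℕ) : A) * ⟨(((α + n).factorial : k))⁻¹, hfacmem⟩ = 1 := by
      apply hι
      rw [map_mul, map_natCast, map_one]
      exact mul_inv_cancel₀ (by exact_mod_cast Nat.factorial_ne_zero _)
    have h2 := congrArg φ h1
    have hzero : (((α + n).factorial : ℕ) : K) = 0 := by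
      rw [hc, Nat.cast_mul, h0, zero_mul]
    rw [map_mul, map_natCast, hzero, zero_mul, map_one] at h2
    exact zero_ne_one h2
  exact finite_field_bound hn hr hσ i0 vK (order_bound i0 vK hα1 hchar) hFKh hFK0 hWK

end CharZero

end Pool.Agent.Helper16
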