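import Pool.Agent.Helper16.Chudnovsky

set_option autoImplicit false
set_option linter.unusedSectionVars false

/-!
# Arbitrary multiplicities: the bound of Demailly
-/

namespace Pool.Agent.Helper16

open MvPolynomial

section Main

variable {σ : Type} [Fintype σ] [DecidableEq σ] {K : Type*} [Field K]

/-- From a form `F` vanishing to order `(μ l + n') * q` at all points we extract a nonzero form `G`
of degree `(d - t) / q` vanishing to order at least `μ l + n' - t / q`. -/
lemma exists_root_mu {n' q : ℕ} (hσ : Fintype.card σ = n' + 1 + 1) (hq : 0 < q)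
    {Λ : Type*} (i0 : Λ → σ) (v : Λ → σ → K) (μ : Λ → ℕ)
    (hT : ∀ l G, T (i0 l) (v l) (expand q G) = expand q (T (i0 l) (v l) G))
    (hT' : ∀ l G, T (i0 l) (-(v l)) (expand q G) = expand q (T (i0 l) (-(v l)) G))
    {F : MvPolynomial σ K} {d : ℕ} (hF : F.IsHomogeneous d) (hF0 : F ≠ 0)
    (hW : ∀ l, T (i0 l) (v l) F ∈ W K (i0 l) ((μ l + n') * q)) :
    ∃ (t g : ℕ) (G : MvPolynomial σ K), G ≠ 0 ∧ G.IsHomogeneous g ∧ d = q * g + t ∧
      ∀ j, (j = 0 ∨ q * j + t < (n' + 1) * q) → ∀ l, T (i0 l) (v l) G ∈ W K (i0 l) (μ l + j) := by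
  classical
  have hne : ((Box σ q).filter fun a => cf q a F ≠ 0).Nonempty := by
    by_contra hcon
    rw [Finset.not_nonempty_iff_eq_empty, Finset.filter_eq_empty_iff] at hcon
    apply hF0
    rw [← sum_cf hq F]
    refine Finset.sum_eq_zero fun a ha => ?_
    have := hcon ha
    rw [not_not] at this
    rw [this, map_zero, zero_mul]
  obtain ⟨a, ha, hmax⟩ := Finset.exists_max_image _ (fun a : σ →₀ ℕ => a.degree) hne
  rw [Finset.mem_filter] at ha
  obtain ⟨haB, hG0⟩ := ha
  obtain ⟨u0, hu0⟩ : ∃ u0, coeff u0 (cf q a F) ≠ 0 := by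
    by_contra hcon
    push Not at hcon
    exact hG0 (by ext u; rw [hcon u, coeff_zero])
  have hdeg : ∀ u, coeff u (cf q a F) ≠ 0 → d = q * u.degree + a.degree := by
    intro u hu
    rw [coeff_cf hq haB] at hu
    have h1 : (q • u + a).degree = d := by
      by_contra h
      exact hu (hF.coeff_eq_zero h)
    rw [← h1, map_add, map_nsmul, smul_eq_mul]
  refine ⟨a.degree, u0.degree, cf q a F, hG0, ?_, hdeg u0 hu0, ?_⟩
  · intro u hu
    have h1 := hdeg u hu
    have h2 := hdeg u0 hu0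
    have h3 : q * u.degree = q * u0.degree := by omega
    have h4 := Nat.eq_of_mul_eq_mul_left hq h3
    rw [← h4]
    simp only [Finsupp.degree_eq_weight_one, Pi.one_def]
  · intro j hj l
    have h1 : F ∈ MM q ⊤ a.degree := by
      refine mem_MM_of hq fun b hb => ⟨Submodule.mem_top, fun hb0 => ?_⟩
      exact hmax b (Finset.mem_filter.mpr ⟨hb, hb0⟩)
    have h2 : T (i0 l) (v l) F ∈ MM q ⊤ a.degree :=
      MM_transport _ (hT l) (fun h => T_hom _ _ h) (fun _ _ => Submodule.mem_top) h1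
    have h3 : T (i0 l) (v l) F ∈ MM q (W K (i0 l) (μ l + j)) a.degree := by
      refine mem_MM_of hq fun b hb => ?_
      have h4 := (of_mem_MM hq h2 b hb).2
      by_cases hb0 : cf q b (T (i0 l) (v l) F) = 0
      · rw [hb0]
        exact ⟨Submodule.zero_mem _, fun h => absurd rfl h⟩
      · have hle : b.degree ≤ a.degree := by
          by_contra hcon
          exact hb0 (h4 (by omega))
        refine ⟨cf_mem_W hq hb (hW l) ?_, fun _ => hle⟩
        have e1 : q * (μ l + j) = q * μ l + q * j := by ring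
        have e2 : (μ l + n') * q + q = q * μ l + (n' + 1) * q := by ring
        rw [e1, e2]
        rcases hj with hj | hj
        · subst hj
          have h5 := wt_Box_le hσ hq (i0 l) hb
          have h6 : (n' + 1) * (q - 1) + (n' + 1) = (n' + 1) * q := by
            rw [← Nat.mul_succ]
            congr 1
            omega
          omega
        · have h5 := wt_le_degree (i0 l) b
          omega
    have h4 : F ∈ MM q ((W K (i0 l) (μ l + j)).comap (T (i0 l) (v l))) a.degree := by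
      rw [← T_neg_T (i0 l) (v l) F]
      refine MM_transport _ (hT' l) (fun h => T_hom _ _ h) (fun G hG => ?_) h3
      rw [Ideal.mem_comap, T_T_neg]
      exact hG
    exact (of_mem_MM hq h4 a haB).1

/-- The bound for exponents which are powers of the cardinality of a finite field. -/
lemma charp_bound_mu {n' q : ℕ} (hσ : Fintype.card σ = n' + 1 + 1) (hq : 0 < q)
    {Λ : Type*} (i0 : Λ → σ) (v : Λ → σ → K) (μ : Λ → ℕ)
    (hT : ∀ l G, T (i0 l) (v l) (expand q G) = expand q (T (i0 l) (v l) G))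
    (hT' : ∀ l G, T (i0 l) (-(v l)) (expand q G) = expand q (T (i0 l) (-(v l)) G))
    {α : ℕ} (hα : ∀ j, j ≤ n' → ∀ (g : ℕ) (G : MvPolynomial σ K), G ≠ 0 →
      G.IsHomogeneous g → (∀ l, T (i0 l) (v l) G ∈ W K (i0 l) (μ l + j)) → α + j ≤ g)
    {F : MvPolynomial σ K} {d : ℕ} (hF : F.IsHomogeneous d) (hF0 : F ≠ 0)
    (hW : ∀ l, T (i0 l) (v l) F ∈ W K (i0 l) ((μ l + n') * q)) : q * (α + n') ≤ d := by
  obtain ⟨t, g, G, hG0, hG, hd, hm⟩ := exists_root_mu hσ hq i0 v μ hT hT' hF hF0 hW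
  obtain ⟨r, hr⟩ : ∃ r, r = t / q := ⟨_, rfl⟩
  have h2 : q * r ≤ t := by rw [hr]; exact Nat.mul_div_le t q
  have h2' : t < q * r + q := by
    have := Nat.lt_mul_div_succ t hq
    rw [Nat.mul_succ, ← hr] at this
    exact this
  by_cases hc : r ≤ n'
  · have h1 := hα (n' - r) (by omega) g G hG0 hG (hm _ (Or.inr ?_))
    · have h3 : q * (α + n') ≤ q * (g + r) := Nat.mul_le_mul_left _ (by omega)
      have h4 : q * (g + r) = q * g + q * r := by ring
      omega
    · have h3 : q * (n' - r) + q * r = n' * q := by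
        rw [← mul_add, Nat.sub_add_cancel hc, mul_comm]
      have h4 : (n' + 1) * q = n' * q + q := by ring
      omega
  · have h1 := hα 0 (Nat.zero_le _) g G hG0 hG (hm _ (Or.inl rfl))
    have h3 : q * n' ≤ q * r := Nat.mul_le_mul_left _ (by omega)
    have h4 : q * α ≤ q * g := Nat.mul_le_mul_left _ (by omega)
    have h5 : q * (α + n') = q * α + q * n' := by ring
    omega

/-- A form of positive order at some point is not constant. -/
lemma pos_of_mem {i0 : σ} {v : σ → K} {m g : ℕ} (hm : 0 < m) {G : MvPolynomial σ K} (hG0 : G ≠ 0)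
    (hG : G.IsHomogeneous g) (hW : T i0 v G ∈ W K i0 m) : 0 < g := by
  rcases Nat.eq_zero_or_pos g with h | h
  · exfalso
    subst h
    rw [← totalDegree_zero_iff_isHomogeneous, totalDegree_eq_zero_iff_eq_C] at hG
    rw [hG, T_C] at hW
    have h2 := hW 0 (by
      rw [coeff_zero_C]
      intro h0
      apply hG0
      rw [hG, h0, map_zero])
    simp only [wt, Finsupp.coe_zero, Pi.zero_apply, Finset.sum_const_zero] at h2
    omega
  · exact h

/-- Derivatives. -/
lemma order_bound_mu {Λ : Type*} [Nonempty Λ] (i0 : Λ → σ) (v : Λ → σ → K) (μ : Λ → ℕ) {α N : ℕ}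
    (hα : ∀ (g : ℕ) (G : MvPolynomial σ K), G ≠ 0 →
      G.IsHomogeneous g → (∀ l, T (i0 l) (v l) G ∈ W K (i0 l) (μ l)) → α ≤ g)
    (hchar : ∀ g : ℕ, 0 < g → g < α + N → (g : K) ≠ 0) :
    ∀ j, j ≤ N → ∀ (g : ℕ) (G : MvPolynomial σ K), G ≠ 0 →
      G.IsHomogeneous g → (∀ l, T (i0 l) (v l) G ∈ W K (i0 l) (μ l + j)) → α + j ≤ g := by
  intro j
  induction j with
  | zero =>
    intro _ g G hG0 hG hW
    exact hα g G hG0 hG hW
  | succ j ih =>
    intro hN g G hG0 hG hW
    by_contra hcon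
    obtain ⟨l⟩ := (inferInstance : Nonempty Λ)
    have hg0 : 0 < g := pos_of_mem (by omega) hG0 hG (hW l)
    have hgK : (g : K) ≠ 0 := hchar g hg0 (by omega)
    have heuler := hG.sum_X_mul_pderiv
    obtain ⟨i, hi⟩ : ∃ i, pderiv i G ≠ 0 := by
      by_contra hc
      push Not at hc
      rw [Finset.sum_eq_zero (fun i _ => by rw [hc i, mul_zero])] at heuler
      have h1 : (C (g : K) : MvPolynomial σ K) * G = 0 := by
        rw [heuler, nsmul_eq_mul]; simp
      rcases mul_eq_zero.mp h1 with h | h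
      · rw [C_eq_zero] at h; exact hgK h
      · exact hG0 h
    have h1 := ih (by omega) (g - 1) (pderiv i G) hi hG.pderiv fun l => T_pderiv_mem (hW l) i
    omega

end Main

section FiniteField

variable {σ : Type} [Fintype σ] [DecidableEq σ] {K : Type} [Field K] [Finite K]

/-- The asymptotic bound over a finite field. -/
lemma finite_field_bound_mu {n' r : ℕ} (hr : 0 < r) (hσ : Fintype.card σ = n' + 1 + 1)
    {Λ : Type*} (i0 : Λ → σ) (v : Λ → σ → K) (μ : Λ → ℕ)
    {α : ℕ} (hα : ∀ j, j ≤ n' → ∀ (g : ℕ) (G : MvPolynomial σ K), G ≠ 0 →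
      G.IsHomogeneous g → (∀ l, T (i0 l) (v l) G ∈ W K (i0 l) (μ l + j)) → α + j ≤ g)
    {F : MvPolynomial σ K} {d : ℕ} (hF : F.IsHomogeneous d) (hF0 : F ≠ 0)
    (hW : ∀ l, T (i0 l) (v l) F ∈ W K (i0 l) (r * (μ l + n'))) : r * (α + n') ≤ d := by
  by_contra hcon
  obtain ⟨N, hN⟩ : ∃ N, d * r < Nat.card K ^ N := by
    obtain ⟨N, hN⟩ := pow_unbounded_of_one_lt (d * r) (one_lt_card_pow (K := K))
    exact ⟨N, hN⟩
  obtain ⟨q, hq⟩ : ∃ q, q = Nat.card K ^ N := ⟨_, rfl⟩
  rw [← hq] at hN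
  have hq0 : 0 < q := by omega
  obtain ⟨a, ha1, ha2⟩ : ∃ a, q ≤ r * a ∧ r * a ≤ q + r := by
    refine ⟨q / r + 1, ?_, ?_⟩
    · exact (Nat.lt_mul_div_succ q hr).le
    · rw [Nat.mul_succ]
      have := Nat.mul_div_le q r
      omega
  have hFa : (F ^ a).IsHomogeneous (d * a) := hF.pow a
  have hFa0 : F ^ a ≠ 0 := pow_ne_zero _ hF0
  have hWa : ∀ l, T (i0 l) (v l) (F ^ a) ∈ W K (i0 l) ((μ l + n') * q) := by
    intro l
    rw [map_pow]
    refine W_mono ?_ (W_pow (hW l) a)
    calc (μ l + n') * q ≤ (μ l + n') * (r * a) := Nat.mul_le_mul_left _ ha1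
      _ = r * (μ l + n') * a := by ring
  have hb := charp_bound_mu hσ hq0 i0 v μ
    (fun l G => by rw [hq]; exact T_expand N _ _ G) (fun l G => by rw [hq]; exact T_expand N _ _ G)
    hα hFa hFa0 hWa
  -- arithmetic
  have h1 : r * (q * (α + n')) ≤ r * (d * a) := Nat.mul_le_mul_left _ hb
  have h2 : r * (d * a) = d * (r * a) := by ring
  have h3 : d * (r * a) ≤ d * (q + r) := Nat.mul_le_mul_left _ ha2
  have h4 : q * (d + 1) ≤ q * (r * (α + n')) := Nat.mul_le_mul_left _ (by omega)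
  have h5 : q * (r * (α + n')) = r * (q * (α + n')) := by ring
  have h6 : d * (q + r) = q * d + d * r := by ring
  have h7 : q * (d + 1) = q * d + q := by ring
  omega

end FiniteField

section Field

variable {σ : Type} [Fintype σ] [DecidableEq σ] {k : Type*} [Field k]

/-- A form of degree `d` vanishing to order `m` has `d ≥ m`. -/
lemma le_of_mem {i0 : σ} {v : σ → k} {m d : ℕ} {F : MvPolynomial σ k} (hF0 : F ≠ 0)
    (hF : F.IsHomogeneous d) (hW : T i0 v F ∈ W k i0 m) : m ≤ d := by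
  have hT0 : T i0 v F ≠ 0 := by
    intro h
    apply hF0
    rw [← T_neg_T i0 v F, h, map_zero]
  obtain ⟨s, hs⟩ : ∃ s, coeff s (T i0 v F) ≠ 0 := by
    by_contra hcon
    push Not at hcon
    exact hT0 (by ext u; rw [hcon u, coeff_zero])
  have h1 := hW s hs
  have h2 : s.degree = d := by
    by_contra h
    exact hs ((T_hom i0 v hF).coeff_eq_zero h)
  have h3 := wt_le_degree i0 s
  omega

lemma monomial_mem_pow {J : Ideal (MvPolynomial σ k)} {i0 : σ}
    (hJ : ∀ i, i ≠ i0 → (X i : MvPolynomial σ k) ∈ J) (s : σ →₀ ℕ) (c : k) :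
    (monomial s c : MvPolynomial σ k) ∈ J ^ wt i0 s := by
  rw [monomial_eq, Finsupp.prod_fintype _ _ (fun i => pow_zero _)]
  refine Ideal.mul_mem_left _ _ ?_
  rw [← Finset.mul_prod_erase _ _ (Finset.mem_univ i0)]
  refine Ideal.mul_mem_left _ _ ?_
  rw [wt, ← Finset.prod_pow_eq_pow_sum]
  exact Ideal.prod_mem_prod fun i hi => Ideal.pow_mem_pow (hJ i (Finset.ne_of_mem_erase hi)) _

lemma X_mem_comap_ptIdeal {w v : σ → k} {i0 : σ} {c : k} (hwv : w = c • v) (hv : v i0 = 1)
    (i : σ) (hi : i ≠ i0) : (X i : MvPolynomial σ k) ∈ (ptIdeal w).comap (T i0 (-v)) := by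
  rw [Ideal.mem_comap, T_X_ne _ hi]
  refine Ideal.subset_span ⟨?_, ?_⟩
  · exact (isHomogeneous_X _ _).add (isHomogeneous_C_mul_X _ _)
  · rw [hwv]
    simp [hv]
    ring

lemma mem_comap_pow (I J : Ideal (MvPolynomial σ k)) (φ : MvPolynomial σ k →ₐ[k] MvPolynomial σ k)
    (m : ℕ) (hJ : J = I.comap φ) (G : MvPolynomial σ k) (hG : G ∈ J ^ m) : φ G ∈ I ^ m := by
  subst hJ
  have h := Ideal.le_comap_pow φ m hG
  rwa [Ideal.mem_comap] at h

/-- Converse of `mem_W_of_mem_ptIdeal_pow`. -/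
lemma mem_ptIdeal_pow_of_mem_W {w v : σ → k} {i0 : σ} {c : k} (hwv : w = c • v) (hv : v i0 = 1)
    {G : MvPolynomial σ k} {m : ℕ} (hG : T i0 v G ∈ W k i0 m) : G ∈ ptIdeal w ^ m := by
  rw [← T_neg_T i0 v G]
  refine mem_comap_pow _ _ (T i0 (-v)) m rfl _ ?_
  rw [(T i0 v G).as_sum]
  refine Ideal.sum_mem _ fun s hs => ?_
  exact Ideal.pow_le_pow_right (hG s (mem_support_iff.mp hs))
    (monomial_mem_pow (fun i hi => X_mem_comap_ptIdeal hwv hv i hi) s _)

/-- Linear algebra: a left inverse for the conditions of vanishing to order `μ l` at the points,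
on forms of degree `e`. -/
lemma exists_inverse_mu {Λ : Type*} [Fintype Λ] (i0 : Λ → σ) (v : Λ → σ → k) (μ : Λ → ℕ) (e : ℕ)
    (h : ∀ G : MvPolynomial σ k, G.IsHomogeneous e →
      (∀ l, T (i0 l) (v l) G ∈ W k (i0 l) (μ l)) → G = 0) :
    ∃ B : (σ →₀ ℕ) → Λ → (σ →₀ ℕ) → k, ∀ s s' : σ →₀ ℕ, s.degree = e → s'.degree = e →
      ∑ l, ∑ u ∈ (Finset.univ.finsuppAntidiag e).filter (fun u => wt (i0 l) u < μ l),
        B s l u * coeff u (T (i0 l) (v l) (monomial s' 1)) = if s = s' then 1 else 0 := by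
  classical
  let M : Finset (σ →₀ ℕ) := Finset.univ.finsuppAntidiag e
  have hM : ∀ s, s ∈ M ↔ s.degree = e := by
    intro s
    rw [Finset.mem_finsuppAntidiag, Finsupp.degree_eq_sum]
    simp
  let f : (M → k) →ₗ[k] MvPolynomial σ k :=
    { toFun := fun c => ∑ s : M, monomial (s : σ →₀ ℕ) (c s)
      map_add' := by
        intro c c'
        simp [Finset.sum_add_distrib]
      map_smul' := by
        intro a c
        simp [Finset.smul_sum, smul_monomial] }
  let I : Type _ := Λ × M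
  let L : (M → k) →ₗ[k] (I → k) :=
    LinearMap.pi fun p => if wt (i0 p.1) (p.2 : σ →₀ ℕ) < μ p.1 then
      (lcoeff k (p.2 : σ →₀ ℕ)).comp ((T (i0 p.1) (v p.1)).toLinearMap.comp f) else 0
  have hLap : ∀ (c : M → k) (p : I), L c p = if wt (i0 p.1) (p.2 : σ →₀ ℕ) < μ p.1 then
      coeff (p.2 : σ →₀ ℕ) (T (i0 p.1) (v p.1) (f c)) else 0 := by
    intro c p
    simp only [L, LinearMap.pi_apply]
    split_ifs <;> rfl
  have hf : ∀ c, (f c).IsHomogeneous e := by
    intro c
    exact IsHomogeneous.sum _ _ _ fun s _ => isHomogeneous_monomial _ ((hM _).mp s.2)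
  have hL : LinearMap.ker L = ⊥ := by
    rw [LinearMap.ker_eq_bot']
    intro c hc
    have h1 : f c = 0 := by
      apply h _ (hf c)
      intro l u hu
      by_contra hcon
      have hdeg : u.degree = e := by
        by_contra h'
        exact hu ((T_hom _ _ (hf c)).coeff_eq_zero h')
      have h2 := congrFun hc (l, ⟨u, (hM u).mpr hdeg⟩)
      rw [hLap, if_pos (by simpa using hcon)] at h2
      exact hu h2
    ext s
    have h2 := congrArg (coeff s) h1
    change coeff (s : σ →₀ ℕ) (∑ s : M, monomial (s : σ →₀ ℕ) (c s)) = _ at h2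
    rw [coeff_sum, coeff_zero, Finset.sum_eq_single s] at h2
    · rw [coeff_monomial, if_pos rfl] at h2
      exact h2
    · intro t _ hts
      rw [coeff_monomial, if_neg (fun h => hts (Subtype.ext h))]
    · intro h; exact absurd (Finset.mem_univ s) h
  obtain ⟨g, hg⟩ := L.exists_leftInverse_of_injective hL
  refine ⟨fun s l u => if hs : s ∈ M ∧ u ∈ M then g (Pi.single (l, ⟨u, hs.2⟩) 1) ⟨s, hs.1⟩ else 0, ?_⟩
  intro s s' hs hs'
  have hsM := (hM s).mpr hs
  have hsM' := (hM s').mpr hs'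
  have h1 : g (L (Pi.single ⟨s', hsM'⟩ 1)) ⟨s, hsM⟩ = if s = s' then 1 else 0 := by
    have := DFunLike.congr_fun hg (Pi.single ⟨s', hsM'⟩ 1)
    rw [LinearMap.comp_apply, LinearMap.id_apply] at this
    rw [this, Pi.single_apply]
    simp only [Subtype.mk.injEq]
  have hfs : f (Pi.single ⟨s', hsM'⟩ 1) = monomial s' 1 := by
    change ∑ s : M, monomial (s : σ →₀ ℕ) ((Pi.single ⟨s', hsM'⟩ 1 : M → k) s) = _
    rw [Finset.sum_eq_single ⟨s', hsM'⟩]
    · rw [Pi.single_eq_same]
    · intro b _ hb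
      rw [Pi.single_eq_of_ne hb, map_zero]
    · intro h'
      exact absurd (Finset.mem_univ _) h'
  rw [← h1]
  have h2 : L (Pi.single ⟨s', hsM'⟩ 1) = ∑ p : I, (if wt (i0 p.1) (p.2 : σ →₀ ℕ) < μ p.1 then
      coeff (p.2 : σ →₀ ℕ) (T (i0 p.1) (v p.1) (monomial s' 1)) else 0) • (Pi.single p 1 : I → k) := by
    ext p
    rw [hLap, hfs, Finset.sum_apply, Finset.sum_eq_single p]
    · simp
    · intro b _ hb
      simp [Ne.symm hb]
    · intro h'
      exact absurd (Finset.mem_univ p) h'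
  rw [h2, map_sum, Finset.sum_apply, Fintype.sum_prod_type]
  refine Finset.sum_congr rfl fun l _ => ?_
  rw [Finset.sum_filter]
  rw [← Finset.sum_coe_sort M]
  refine Finset.sum_congr rfl fun u _ => ?_
  simp only [map_smul, Pi.smul_apply, smul_eq_mul, dif_pos (And.intro hsM u.2)]
  split_ifs
  · ring
  · ring

/-- If the conditions have a left inverse, forms of degree `e` satisfying them vanish. -/
lemma eq_zero_of_inverse_mu {Λ : Type*} [Fintype Λ] (i0 : Λ → σ) (v : Λ → σ → k) (μ : Λ → ℕ) (e : ℕ)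
    (B : (σ →₀ ℕ) → Λ → (σ →₀ ℕ) → k) (hB : ∀ s s' : σ →₀ ℕ, s.degree = e → s'.degree = e →
      ∑ l, ∑ u ∈ (Finset.univ.finsuppAntidiag e).filter (fun u => wt (i0 l) u < μ l),
        B s l u * coeff u (T (i0 l) (v l) (monomial s' 1)) = if s = s' then 1 else 0)
    (G : MvPolynomial σ k) (hG : G.IsHomogeneous e)
    (h0 : ∀ l, T (i0 l) (v l) G ∈ W k (i0 l) (μ l)) : G = 0 := by
  classical
  ext s
  rw [coeff_zero]
  by_cases hs : s.degree = e
  · have hdeg : ∀ t ∈ G.support, t.degree = e := by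
      intro t ht
      by_contra h
      exact (mem_support_iff.mp ht) (hG.coeff_eq_zero h)
    have h1 : coeff s G = ∑ t ∈ G.support, coeff t G * (if s = t then 1 else 0) := by
      simp only [mul_ite, mul_one, mul_zero]
      rw [Finset.sum_ite_eq]
      split_ifs with h
      · rfl
      · exact notMem_support_iff.mp h
    rw [h1, Finset.sum_congr rfl fun t ht => by rw [← hB s t hs (hdeg t ht)]]
    simp only [Finset.mul_sum]
    rw [Finset.sum_comm]
    refine Finset.sum_eq_zero fun l _ => ?_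
    rw [Finset.sum_comm]
    refine Finset.sum_eq_zero fun u hu => ?_
    rw [Finset.mem_filter] at hu
    have h2 : coeff u (T (i0 l) (v l) G) = 0 := by
      by_contra hcon
      have := h0 l u hcon
      omega
    have h3 : coeff u (T (i0 l) (v l) G) =
        ∑ t ∈ G.support, coeff t G * coeff u (T (i0 l) (v l) (monomial t 1)) := by
      conv_lhs => rw [G.as_sum]
      rw [map_sum, coeff_sum]
      refine Finset.sum_congr rfl fun t _ => ?_
      have h4 : (monomial t (coeff t G) : MvPolynomial σ k) = C (coeff t G) * monomial t 1 := by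
        rw [C_mul_monomial, mul_one]
      rw [h4, map_mul, T_C, coeff_C_mul]
    rw [h3] at h2
    have h5 : ∑ t ∈ G.support, coeff t G * (B s l u * coeff u (T (i0 l) (v l) (monomial t 1))) =
        B s l u * ∑ t ∈ G.support, coeff t G * coeff u (T (i0 l) (v l) (monomial t 1)) := by
      rw [Finset.mul_sum]
      refine Finset.sum_congr rfl fun t _ => ?_
      ring
    rw [h5, h2, mul_zero]
  · exact hG.coeff_eq_zero hs

end Field

/-! ### Reduction to finite fields -/

section Reduction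

variable {σ : Type} [Fintype σ] [DecidableEq σ] {k : Type} [Field k]

lemma factorial_ne_zero_of {N : ℕ} (h : ∀ g : ℕ, 0 < g → g ≤ N → (g : k) ≠ 0) :
    ((N.factorial : ℕ) : k) ≠ 0 := by
  induction N with
  | zero => simp
  | succ N ih =>
    rw [Nat.factorial_succ, Nat.cast_mul]
    exact mul_ne_zero (h _ (Nat.succ_pos _) le_rfl) (ih fun g hg0 hg => h g hg0 (by omega))

/-- The bound for arbitrary multiplicities, in coordinates. -/
theorem main_bound_mu {n' r : ℕ} (hr : 0 < r) (hσ : Fintype.card σ = n' + 1 + 1)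
    {Λ : Type} [Fintype Λ] [Nonempty Λ] (i0 : Λ → σ) (v : Λ → σ → k)
    (hv : ∀ l, v l (i0 l) = 1) (μ : Λ → ℕ) {α : ℕ}
    (hα : ∀ (g : ℕ) (G : MvPolynomial σ k), G ≠ 0 →
      G.IsHomogeneous g → (∀ l, T (i0 l) (v l) G ∈ W k (i0 l) (μ l)) → α ≤ g)
    (hch : ∀ g : ℕ, 0 < g → g < α + n' → (g : k) ≠ 0)
    {F : MvPolynomial σ k} {d : ℕ} (hF : F.IsHomogeneous d) (hF0 : F ≠ 0)
    (hW : ∀ l, T (i0 l) (v l) F ∈ W k (i0 l) (r * (μ l + n'))) : r * (α + n') ≤ d := by
  classical
  rcases Nat.eq_zero_or_pos α with h0 | hα0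
  · subst h0
    obtain ⟨l⟩ := (inferInstance : Nonempty Λ)
    have h1 := le_of_mem hF0 hF (hW l)
    refine le_trans (Nat.mul_le_mul_left _ ?_) h1
    omega
  have hαk : ∀ G : MvPolynomial σ k, G.IsHomogeneous (α - 1) →
      (∀ l, T (i0 l) (v l) G ∈ W k (i0 l) (μ l)) → G = 0 := by
    intro G hG hGW
    by_contra hG0
    have := hα _ G hG0 hG hGW
    omega
  obtain ⟨B, hB⟩ := exists_inverse_mu i0 v μ (α - 1) hαk
  obtain ⟨s0, hs0⟩ : ∃ s0, coeff s0 F ≠ 0 := by
    by_contra hcon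
    push Not at hcon
    exact hF0 (by ext u; rw [hcon u, coeff_zero])
  let M : Finset (σ →₀ ℕ) := Finset.univ.finsuppAntidiag (α - 1)
  have hM : ∀ s, s ∈ M ↔ s.degree = α - 1 := by
    intro s
    rw [Finset.mem_finsuppAntidiag, Finsupp.degree_eq_sum]
    simp
  let S : Finset k := (Finset.univ.image fun p : Λ × σ => v p.1 p.2) ∪ F.coeffs ∪
    ((M ×ˢ (Finset.univ ×ˢ M)).image fun p : (σ →₀ ℕ) × (Λ × (σ →₀ ℕ)) => B p.1 p.2.1 p.2.2) ∪
    {(coeff s0 F)⁻¹, (((α + n' - 1).factorial : k))⁻¹}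
  let A : Subalgebra ℤ k := Algebra.adjoin ℤ (S : Set k)
  have hSA : ∀ x ∈ S, x ∈ A := fun x hx => Algebra.subset_adjoin (Finset.mem_coe.mpr hx)
  have hft : Algebra.FiniteType ℤ A :=
    (Subalgebra.fg_iff_finiteType _).mp (Subalgebra.fg_adjoin_finset S)
  have hft' : (Int.castRingHom A).FiniteType := by
    have h1 : (algebraMap ℤ A).FiniteType := RingHom.finiteType_algebraMap.mpr hft
    have h2 : algebraMap ℤ A = Int.castRingHom A := RingHom.ext_int _ _
    rwa [h2] at h1
  have hnt : Nontrivial A := inferInstance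
  obtain ⟨K, _, _, ⟨φ⟩⟩ := exists_finite_field_hom A hft'
  let ι : A →+* k := A.val.toRingHom
  have hι : Function.Injective ι := Subtype.val_injective
  -- lifts to `A`
  have hvmem : ∀ l i, v l i ∈ A := fun l i => hSA _ (by
    simp only [S, Finset.mem_union]
    exact Or.inl (Or.inl (Or.inl (Finset.mem_image.mpr ⟨(l, i), Finset.mem_univ _, rfl⟩))))
  have hBmem : ∀ s ∈ M, ∀ l, ∀ u ∈ M, B s l u ∈ A := fun s hs l u hu => hSA _ (by
    simp only [S, Finset.mem_union]
    exact Or.inl (Or.inr (Finset.mem_image.mpr ⟨(s, (l, u)), by simp [hs, hu], rfl⟩)))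
  have hc0mem : (coeff s0 F)⁻¹ ∈ A := hSA _ (by simp [S])
  have hfacmem : (((α + n' - 1).factorial : k))⁻¹ ∈ A := hSA _ (by simp [S])
  have hfac0 : (((α + n' - 1).factorial : ℕ) : k) ≠ 0 :=
    factorial_ne_zero_of fun g hg0 hg => hch g hg0 (by omega)
  obtain ⟨FA, hFA⟩ : F ∈ Set.range (MvPolynomial.map ι) := by
    rw [mem_range_map_iff_coeffs_subset]
    intro x hx
    refine ⟨⟨x, hSA _ ?_⟩, rfl⟩
    simp only [S, Finset.mem_union]
    exact Or.inl (Or.inl (Or.inr (Finset.mem_coe.mp hx)))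
  let vA : Λ → σ → A := fun l i => ⟨v l i, hvmem l i⟩
  let vK : Λ → σ → K := fun l i => φ (vA l i)
  have hvK : ∀ l, vK l (i0 l) = 1 := by
    intro l
    have : vA l (i0 l) = 1 := Subtype.ext (hv l)
    simp only [vK, this, map_one]
  -- the form over `K`
  have hFAh : FA.IsHomogeneous d := by
    refine IsHomogeneous.of_map (f := ι) hι ?_
    rw [hFA]; exact hF
  have hFKh : (map φ FA).IsHomogeneous d := hFAh.map φ
  have hFK0 : map φ FA ≠ 0 := by
    intro h
    have h1 := congrArg (coeff s0) h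
    rw [coeff_map, coeff_zero] at h1
    have h2 : coeff s0 FA * ⟨(coeff s0 F)⁻¹, hc0mem⟩ = 1 := by
      apply hι
      rw [map_mul, map_one, ← coeff_map, hFA]
      exact mul_inv_cancel₀ hs0
    have h3 := congrArg φ h2
    rw [map_mul, h1, zero_mul, map_one] at h3
    exact zero_ne_one h3
  have hWK : ∀ l, T (i0 l) (vK l) (map φ FA) ∈ W K (i0 l) (r * (μ l + n')) := by
    intro l
    have h1 : map ι (T (i0 l) (vA l) FA) = T (i0 l) (v l) F := by
      rw [map_T, hFA]
      rfl
    have h2 : T (i0 l) (vA l) FA ∈ W A (i0 l) (r * (μ l + n')) := by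
      apply of_map_mem_W ι hι
      rw [h1]; exact hW l
    have h3 := map_mem_W φ h2
    rw [map_T] at h3
    exact h3
  -- the left inverse over `K`
  let BK : (σ →₀ ℕ) → Λ → (σ →₀ ℕ) → K := fun s l u =>
    if hs : s ∈ M ∧ u ∈ M then φ ⟨B s l u, hBmem s hs.1 l u hs.2⟩ else 0
  have hBK : ∀ s s' : σ →₀ ℕ, s.degree = α - 1 → s'.degree = α - 1 →
      ∑ l, ∑ u ∈ (Finset.univ.finsuppAntidiag (α - 1)).filter (fun u => wt (i0 l) u < μ l),
        BK s l u * coeff u (T (i0 l) (vK l) (monomial s' 1)) = if s = s' then 1 else 0 := by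
    intro s s' hs hs'
    have hsM := (hM s).mpr hs
    have hfilt : ∀ l, ∀ u ∈ M.filter (fun u => wt (i0 l) u < μ l), u ∈ M := fun l u hu =>
      (Finset.mem_filter.mp hu).1
    have h1 : ∑ l, ∑ u ∈ (M.filter (fun u => wt (i0 l) u < μ l)).attach,
        (⟨B s l u, hBmem s hsM l u (hfilt l u u.2)⟩ : A) *
          coeff (u : σ →₀ ℕ) (T (i0 l) (vA l) (monomial s' 1)) = if s = s' then 1 else 0 := by
      apply hι
      have h2 := hB s s' hs hs'
      rw [map_sum]
      simp only [map_sum, map_mul]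
      have h3 : ∀ l, ∑ u ∈ (M.filter (fun u => wt (i0 l) u < μ l)).attach,
          ι (⟨B s l u, hBmem s hsM l u (hfilt l u u.2)⟩ : A) *
            ι (coeff (u : σ →₀ ℕ) (T (i0 l) (vA l) (monomial s' 1))) =
          ∑ u ∈ M.filter (fun u => wt (i0 l) u < μ l),
            B s l u * coeff u (T (i0 l) (v l) (monomial s' 1)) := by
        intro l
        rw [← Finset.sum_attach (M.filter (fun u => wt (i0 l) u < μ l))
          (fun u => B s l u * coeff u (T (i0 l) (v l) (monomial s' 1)))]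
        refine Finset.sum_congr rfl fun u _ => ?_
        have h4 : ι (coeff (u : σ →₀ ℕ) (T (i0 l) (vA l) (monomial s' 1))) =
            coeff (u : σ →₀ ℕ) (T (i0 l) (v l) (monomial s' 1)) := by
          rw [← coeff_map, map_T, map_monomial, map_one]
          rfl
        rw [h4]
        rfl
      rw [Finset.sum_congr rfl fun l _ => h3 l]
      refine Eq.trans h2 ?_
      split_ifs <;> simp
    have h2 := congrArg φ h1
    rw [map_sum] at h2
    simp only [map_sum, map_mul] at h2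
    have h3 : φ (if s = s' then 1 else 0) = if s = s' then 1 else 0 := by
      split_ifs <;> simp
    rw [h3] at h2
    rw [← h2]
    refine Finset.sum_congr rfl fun l _ => ?_
    rw [← Finset.sum_attach (Finset.filter _ _)]
    refine Finset.sum_congr rfl fun u _ => ?_
    have hu := hfilt l u u.2
    have h4 : φ (coeff (u : σ →₀ ℕ) (T (i0 l) (vA l) (monomial s' 1))) =
        coeff (u : σ →₀ ℕ) (T (i0 l) (vK l) (monomial s' 1)) := by
      rw [← coeff_map, map_T, map_monomial, map_one]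
    rw [h4]
    simp only [BK, dif_pos (And.intro hsM hu)]
  have hα1 : ∀ (g : ℕ) (G : MvPolynomial σ K), G ≠ 0 →
      G.IsHomogeneous g → (∀ l, T (i0 l) (vK l) G ∈ W K (i0 l) (μ l)) → α ≤ g := by
    intro g G hG0 hG hGW
    by_contra hcon
    obtain ⟨l0⟩ := (inferInstance : Nonempty Λ)
    have h1 : (X (i0 l0) ^ (α - 1 - g) * G).IsHomogeneous (α - 1) := by
      have h2 := (isHomogeneous_X_pow (R := K) (i0 l0) (α - 1 - g)).mul hG
      have h3 : (α - 1 - g) + g = α - 1 := by omega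
      rwa [h3] at h2
    have h2 := eq_zero_of_inverse_mu i0 vK μ (α - 1) BK hBK _ h1 (fun l => by
      rw [map_mul]
      exact Ideal.mul_mem_left _ _ (hGW l))
    rcases mul_eq_zero.mp h2 with h | h
    · exact (pow_ne_zero _ (X_ne_zero _)) h
    · exact hG0 h
  have hchar : ∀ g : ℕ, 0 < g → g < α + n' → (g : K) ≠ 0 := by
    intro g hg0 hg h0
    obtain ⟨c, hc⟩ : g ∣ (α + n' - 1).factorial := Nat.dvd_factorial hg0 (by omega)
    have h1 : (((α + n' - 1).factorial : ℕ) : A) *
        ⟨(((α + n' - 1).factorial : k))⁻¹, hfacmem⟩ = 1 := by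
      apply hι
      rw [map_mul, map_natCast, map_one]
      exact mul_inv_cancel₀ hfac0
    have h2 := congrArg φ h1
    have hzero : (((α + n' - 1).factorial : ℕ) : K) = 0 := by
      rw [hc, Nat.cast_mul, h0, zero_mul]
    rw [map_mul, map_natCast, hzero, zero_mul, map_one] at h2
    exact zero_ne_one h2
  exact finite_field_bound_mu hr hσ i0 vK μ (order_bound_mu i0 vK μ hα1 hchar) hFKh hFK0 hWK

end Reduction

end Pool.Agent.Helper16
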